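import Mathlib

/-!
# Commutators in a group modulo a term of the lower central series
-/

set_option autoImplicit false

namespace Pool.Agent.STE

open scoped commutatorElement

theorem alg {Q : Type*} [Group Q] (a b y κ : Q) (h1 : ∀ c, ⁅a, c⁆ ∈ Subgroup.center Q)
    (hy : y ∈ Subgroup.center Q) (s t : ℤ) (hs : s = 1 ∨ s = -1) :
    ⁅y * a ^ s, κ⁻¹ * b ^ t * κ⁆ = ⁅a, b⁆ ^ (s * t) := by
  have hc : ∀ c d, ⁅a, c⁆ * d = d * ⁅a, c⁆ := fun c d => (Subgroup.mem_center_iff.1 (h1 c) d).symm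
  let f : Q →* Q := MonoidHom.mk' (fun c => ⁅a, c⁆) (fun c d => by
    have e : ⁅a, c * d⁆ = ⁅a, c⁆ * (c * ⁅a, d⁆) * c⁻¹ := by
      simp only [commutatorElement_def]
      group
    rw [e, ← hc d c]
    group)
  have hf : ∀ c, f c = ⁅a, c⁆ := fun c => rfl
  have e1 : ⁅a, κ⁻¹ * b ^ t * κ⁆ = ⁅a, b⁆ ^ t := by
    rw [← hf, map_mul, map_mul, map_zpow, map_inv, hf, hf]
    have h2 : ⁅a, b⁆ ^ t * ⁅a, κ⁆ = ⁅a, κ⁆ * ⁅a, b⁆ ^ t := (hc κ _).symm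
    rw [mul_assoc, h2, inv_mul_cancel_left]
  obtain ⟨c, hc'⟩ : ∃ c, c = κ⁻¹ * b ^ t * κ := ⟨_, rfl⟩
  rw [← hc'] at e1 ⊢
  have hyc : ∀ d, y * d = d * y := fun d => (Subgroup.mem_center_iff.1 hy d).symm
  have e2 : ⁅y * a ^ s, c⁆ = ⁅a ^ s, c⁆ := by
    have e : ⁅y * a ^ s, c⁆ = y * (a ^ s * c * (a ^ s)⁻¹) * y⁻¹ * c⁻¹ := by
      simp only [commutatorElement_def]
      group
    rw [e, hyc]
    simp only [commutatorElement_def]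
    group
  rw [e2, zpow_mul', ← e1]
  rcases hs with rfl | rfl
  · rw [zpow_one, zpow_one]
  · have e : ⁅a ^ (-1 : ℤ), c⁆ = a⁻¹ * ⁅a, c⁆⁻¹ * a := by
      simp only [commutatorElement_def]
      group
    have h3 : a⁻¹ * ⁅a, c⁆⁻¹ = ⁅a, c⁆⁻¹ * a⁻¹ := by
      rw [← mul_inv_rev, ← mul_inv_rev, hc c a]
    rw [e, h3]
    group

theorem alg2 {P : Type*} [Group P] (K N : Subgroup P) (hN : ∀ κ ∈ K, ∀ n ∈ N, κ * n * κ⁻¹ ∈ N)
    {x y z κ : P} (hx : x ∈ K) (hy : y ∈ K) (hz : z ∈ K) (hκ : κ ∈ K)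
    (h1 : ∀ c ∈ K, ∀ d ∈ K, ⁅⁅x, c⁆, d⁆ ∈ N) (h2 : ∀ d ∈ K, ⁅y, d⁆ ∈ N) (s t : ℤ)
    (hs : s = 1 ∨ s = -1) :
    ∃ y' ∈ N, ⁅y * x ^ s, κ⁻¹ * z ^ t * κ⁆ = y' * ⁅x, z⁆ ^ (s * t) := by
  have hNn : (N.subgroupOf K).Normal := by
    constructor
    intro n hn g
    rw [Subgroup.mem_subgroupOf] at hn ⊢
    exact hN g g.2 n hn
  let π := QuotientGroup.mk' (N.subgroupOf K)
  obtain ⟨x', hx'⟩ : ∃ x' : K, (x' : P) = x := ⟨⟨x, hx⟩, rfl⟩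
  obtain ⟨y', hy'⟩ : ∃ y' : K, (y' : P) = y := ⟨⟨y, hy⟩, rfl⟩
  obtain ⟨z', hz'⟩ : ∃ z' : K, (z' : P) = z := ⟨⟨z, hz⟩, rfl⟩
  obtain ⟨κ', hκ'⟩ : ∃ κ' : K, (κ' : P) = κ := ⟨⟨κ, hκ⟩, rfl⟩
  have key : ∀ p q : K, π p = π q → ∃ n ∈ N, (p : P) = n * q := by
    intro p q h
    have h3 : π (p * q⁻¹) = 1 := by
      rw [map_mul, h, map_inv, mul_inv_cancel]
    rw [← MonoidHom.mem_ker, QuotientGroup.ker_mk', Subgroup.mem_subgroupOf] at h3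
    exact ⟨_, h3, by simp⟩
  have key2 : ∀ p : K, (∀ d : K, ((⁅p, d⁆ : K) : P) ∈ N) → π p ∈ Subgroup.center _ := by
    intro p hp
    rw [Subgroup.mem_center_iff]
    intro g
    obtain ⟨d, rfl⟩ := QuotientGroup.mk'_surjective _ g
    have h3 : π ⁅p, d⁆ = 1 := by
      rw [← MonoidHom.mem_ker, QuotientGroup.ker_mk', Subgroup.mem_subgroupOf]
      exact hp d
    rw [map_commutatorElement, commutatorElement_eq_one_iff_mul_comm] at h3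
    exact h3.symm
  have h3 := alg (π x') (π z') (π y') (π κ') (fun c => by
    obtain ⟨c, rfl⟩ := QuotientGroup.mk'_surjective _ c
    rw [← map_commutatorElement]
    refine key2 _ fun d => ?_
    have h4 := h1 c c.2 d d.2
    rw [← hx'] at h4
    exact h4) (key2 y' fun d => by
      have h4 := h2 d d.2
      rw [← hy'] at h4
      exact h4) s t hs
  have h4 : π ⁅y' * x' ^ s, κ'⁻¹ * z' ^ t * κ'⁆ = π (⁅x', z'⁆ ^ (s * t)) := by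
    rw [map_commutatorElement, map_mul, map_mul, map_mul, map_inv, map_zpow, map_zpow, map_zpow,
      map_commutatorElement]
    exact h3
  obtain ⟨n, hn, h5⟩ := key _ _ h4
  refine ⟨n, hn, ?_⟩
  rw [← hx', ← hy', ← hz', ← hκ']
  have h6 : ((⁅y' * x' ^ s, κ'⁻¹ * z' ^ t * κ'⁆ : K) : P) =
      ⁅(y' : P) * (x' : P) ^ s, (κ' : P)⁻¹ * (z' : P) ^ t * (κ' : P)⁆ := by
    simp only [commutatorElement_def]
    push_cast
    rfl
  have h7 : ((⁅x', z'⁆ ^ (s * t) : K) : P) = ⁅(x' : P), (z' : P)⁆ ^ (s * t) := by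
    simp only [commutatorElement_def]
    push_cast
    rfl
  rw [← h6, h5, h7]

end Pool.Agent.STE
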