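import Mathlib

/-!
# Common transversals of two normal subgroups
-/

set_option autoImplicit false

namespace Pool.Agent.STE

/-- Two normal subgroups of the same order with trivial intersection have a common transversal which
contains two given elements that are in different cosets of both subgroups. -/
theorem common {K : Type*} [Group K] [Finite K] (N₁ N₂ : Subgroup K) [N₁.Normal] [N₂.Normal]
    (hd : N₁ ⊓ N₂ = ⊥) (hc : Nat.card N₁ = Nat.card N₂) (x : K) (h1 : x ∉ N₁) (h2 : x ∉ N₂) :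
    ∃ Z : Set K, 1 ∈ Z ∧ x ∈ Z ∧ (∀ g, ∃! z, z ∈ Z ∧ z⁻¹ * g ∈ N₁) ∧
      ∀ g, ∃! z, z ∈ Z ∧ z⁻¹ * g ∈ N₂ := by
  classical
  -- the bijection
  obtain ⟨φ, hφ1, hφx⟩ : ∃ φ : N₁ ≃ N₂, φ 1 = 1 ∧
      ∀ (n₁ : N₁) (n₂ : N₂), (n₁ : K) * n₂ = x → φ n₁ = n₂ := by
    have e0 : N₁ ≃ N₂ := (Finite.card_eq.1 hc).some
    obtain ⟨e1, he1⟩ : ∃ e : N₁ ≃ N₂, e 1 = 1 :=
      ⟨e0.trans (Equiv.swap (e0 1) 1), by simp⟩
    by_cases hx : ∃ (n₁ : N₁) (n₂ : N₂), (n₁ : K) * n₂ = x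
    · obtain ⟨a, b, hab⟩ := hx
      have ha : a ≠ 1 := by
        rintro rfl
        apply h2
        rw [← hab]
        simp
      have hb : b ≠ 1 := by
        rintro rfl
        apply h1
        rw [← hab]
        simp
      refine ⟨e1.trans (Equiv.swap (e1 a) b), ?_, fun n₁ n₂ h => ?_⟩
      · rw [Equiv.trans_apply, he1]
        refine Equiv.swap_apply_of_ne_of_ne ?_ hb.symm
        intro h
        rw [← he1] at h
        exact ha (e1.injective h).symm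
      · have h3 : (n₁ : K) = a ∧ (n₂ : K) = b := by
          have h4 : (a : K)⁻¹ * n₁ = b * (n₂ : K)⁻¹ := by
            rw [eq_mul_inv_iff_mul_eq, mul_assoc, h, ← hab]
            simp
          have h5 : (a : K)⁻¹ * n₁ ∈ N₁ ⊓ N₂ :=
            ⟨N₁.mul_mem (N₁.inv_mem a.2) n₁.2, h4 ▸ N₂.mul_mem b.2 (N₂.inv_mem n₂.2)⟩
          rw [hd, Subgroup.mem_bot] at h5
          constructor
          · exact (inv_mul_eq_one.1 h5).symm
          · rw [h5] at h4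
            exact (mul_inv_eq_one.1 h4.symm).symm
        have h4 : n₁ = a := Subtype.ext h3.1
        have h5 : n₂ = b := Subtype.ext h3.2
        rw [h4, h5]
        simp
    · exact ⟨e1, he1, fun n₁ n₂ h => absurd ⟨n₁, n₂, h⟩ hx⟩
  -- the representatives
  set N : Subgroup K := N₁ ⊔ N₂ with hN
  obtain ⟨τ, hτ, hτ1, hτx⟩ : ∃ τ : K ⧸ N → K, (∀ q, (τ q : K ⧸ N) = q) ∧ τ (1 : K) = 1 ∧
      (x ∉ N → τ (x : K) = x) := by
    refine ⟨fun q => if q = ((1 : K) : K ⧸ N) then 1 else if q = (x : K ⧸ N) then x else q.out,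
      fun q => ?_, ?_, fun hx => ?_⟩
    · dsimp only
      split_ifs with h h'
      · exact h.symm
      · exact h'.symm
      · exact QuotientGroup.out_eq' q
    · exact if_pos rfl
    · have h3 : ((x : K) : K ⧸ N) ≠ ((1 : K) : K ⧸ N) := by
        intro h
        rw [QuotientGroup.mk_one, QuotientGroup.eq_one_iff] at h
        exact hx h
      simp only
      rw [if_neg h3]
      simp
  have hcomm : ∀ (a : N₁) (b : N₂), (a : K) * b = b * a := by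
    intro a b
    have h3 : (a : K) * b * (a : K)⁻¹ * (b : K)⁻¹ ∈ N₁ ⊓ N₂ := by
      constructor
      · have e : (a : K) * b * (a : K)⁻¹ * (b : K)⁻¹ = a * (b * (a : K)⁻¹ * (b : K)⁻¹) := by
          group
        rw [e]
        exact N₁.mul_mem a.2 (Subgroup.Normal.conj_mem inferInstance _ (N₁.inv_mem a.2) _)
      · exact N₂.mul_mem (Subgroup.Normal.conj_mem inferInstance _ b.2 _) (N₂.inv_mem b.2)
    rw [hd, Subgroup.mem_bot] at h3
    exact (mul_inv_eq_iff_eq_mul.1 (mul_inv_eq_one.1 h3))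
  -- the decomposition
  have hdec : ∀ g : K, ∃ (n₁ : N₁) (n₂ : N₂), g = τ g * n₁ * n₂ := by
    intro g
    have h3 : (τ g)⁻¹ * g ∈ N₁ ⊔ N₂ := by
      rw [← hN, ← QuotientGroup.eq]
      exact hτ g
    rw [Subgroup.mem_sup_of_normal_right] at h3
    obtain ⟨a, ha, b, hb, hab⟩ := h3
    refine ⟨⟨a, ha⟩, ⟨b, hb⟩, ?_⟩
    change g = τ g * a * b
    rw [mul_assoc, hab, mul_inv_cancel_left]
  have hq : ∀ (q : K ⧸ N) (n₁ : N₁) (n₂ : N₂), ((τ q * n₁ * n₂ : K) : K ⧸ N) = q := by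
    intro q n₁ n₂
    have h3 : ((τ q * n₁ * n₂ : K) : K ⧸ N) = (τ q : K ⧸ N) := by
      symm
      rw [QuotientGroup.eq]
      have e : (τ q)⁻¹ * (τ q * n₁ * n₂) = n₁ * n₂ := by group
      rw [e]
      exact N.mul_mem ((le_sup_left : N₁ ≤ N) n₁.2) ((le_sup_right : N₂ ≤ N) n₂.2)
    rw [h3, hτ]
  refine ⟨{z | ∃ (q : K ⧸ N) (n : N₁), z = τ q * n * φ n}, ⟨(1 : K), 1, ?_⟩, ?_, fun g => ?_,
    fun g => ?_⟩
  · rw [hτ1, hφ1]
    simp
  · by_cases hx : x ∈ N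
    · have hx' := hx
      rw [hN, Subgroup.mem_sup_of_normal_right] at hx'
      obtain ⟨a, ha, b, hb, hab⟩ := hx'
      refine ⟨(1 : K), ⟨a, ha⟩, ?_⟩
      rw [hτ1, hφx ⟨a, ha⟩ ⟨b, hb⟩ hab, one_mul]
      exact hab.symm
    · refine ⟨(x : K), 1, ?_⟩
      rw [hτx hx, hφ1]
      simp
  · obtain ⟨n₁, n₂, hg⟩ := hdec g
    refine ⟨τ g * (φ.symm n₂ : N₁) * n₂, ⟨⟨g, φ.symm n₂, by simp⟩, ?_⟩, ?_⟩
    · rw [hg]
      have e : (τ (g : K) * (φ.symm n₂ : N₁) * n₂)⁻¹ * (τ (g : K) * n₁ * n₂) =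
          (n₂ : K)⁻¹ * (((φ.symm n₂ : N₁) : K)⁻¹ * n₁) * n₂ := by group
      have e' : (τ ((τ g * n₁ * n₂ : K) : K ⧸ N) * (φ.symm n₂ : N₁) * n₂)⁻¹ *
          (τ (g : K) * n₁ * n₂) = (n₂ : K)⁻¹ * (((φ.symm n₂ : N₁) : K)⁻¹ * n₁) * n₂ := by
        rw [hq]
        exact e
      have h3 := Subgroup.Normal.conj_mem (inferInstance : N₁.Normal)
        (((φ.symm n₂ : N₁) : K)⁻¹ * n₁) (N₁.mul_mem (N₁.inv_mem (φ.symm n₂).2) n₁.2) (n₂ : K)⁻¹
      rw [inv_inv] at h3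
      first
        | (rw [e']; exact h3)
        | (rw [e]; exact h3)
    · rintro z ⟨⟨q, n, rfl⟩, hz⟩
      have h3 : q = (g : K ⧸ N) := by
        rw [← hq q n (φ n), QuotientGroup.eq]
        exact (le_sup_left : N₁ ≤ N) hz
      subst h3
      have h4 : ((φ n : N₂) : K)⁻¹ * n₂ ∈ N₁ ⊓ N₂ := by
        refine ⟨?_, N₂.mul_mem (N₂.inv_mem (φ n).2) n₂.2⟩
        have e : (τ (g : K) * n * (φ n : N₂))⁻¹ * g =
            (n : K)⁻¹ * (((φ n : N₂) : K)⁻¹ * n₂) * n₁ := by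
          conv_lhs => rw [hg, hq]
          rw [mul_inv_rev, mul_inv_rev]
          have c1 := hcomm n₁ n₂
          have c2 := hcomm n⁻¹ (φ n)⁻¹
          simp only [InvMemClass.coe_inv] at c2
          calc ((φ n : N₂) : K)⁻¹ * ((n : K)⁻¹ * (τ (g : K))⁻¹) * (τ (g : K) * n₁ * n₂)
              = (((φ n : N₂) : K)⁻¹ * (n : K)⁻¹) * ((n₁ : K) * n₂) := by group
            _ = ((n : K)⁻¹ * ((φ n : N₂) : K)⁻¹) * ((n₂ : K) * n₁) := by rw [← c2, c1]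
            _ = (n : K)⁻¹ * (((φ n : N₂) : K)⁻¹ * n₂) * n₁ := by group
        rw [e] at hz
        have h5 := N₁.mul_mem (N₁.mul_mem n.2 hz) (N₁.inv_mem n₁.2)
        have e2 : (n : K) * ((n : K)⁻¹ * (((φ n : N₂) : K)⁻¹ * n₂) * n₁) * (n₁ : K)⁻¹ =
            ((φ n : N₂) : K)⁻¹ * n₂ := by group
        rwa [e2] at h5
      rw [hd, Subgroup.mem_bot, inv_mul_eq_one] at h4
      have h5 : φ n = n₂ := Subtype.ext h4
      rw [← h5]
      simp
  · obtain ⟨n₁, n₂, hg⟩ := hdec g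
    refine ⟨τ g * n₁ * φ n₁, ⟨⟨g, n₁, rfl⟩, ?_⟩, ?_⟩
    · have e : (τ (g : K) * n₁ * φ n₁)⁻¹ * g = ((φ n₁ : N₂) : K)⁻¹ * n₂ := by
        conv_lhs => rw [hg, hq]
        group
      rw [e]
      exact N₂.mul_mem (N₂.inv_mem (φ n₁).2) n₂.2
    · rintro z ⟨⟨q, n, rfl⟩, hz⟩
      have h3 : q = (g : K ⧸ N) := by
        rw [← hq q n (φ n), QuotientGroup.eq]
        exact (le_sup_right : N₂ ≤ N) hz
      subst h3
      have h4 : (n : K)⁻¹ * n₁ ∈ N₁ ⊓ N₂ := by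
        refine ⟨N₁.mul_mem (N₁.inv_mem n.2) n₁.2, ?_⟩
        have e : (τ (g : K) * n * (φ n : N₂))⁻¹ * g =
            ((φ n : N₂) : K)⁻¹ * ((n : K)⁻¹ * n₁) * n₂ := by
          conv_lhs => rw [hg, hq]
          group
        rw [e] at hz
        have h5 := N₂.mul_mem (N₂.mul_mem (φ n).2 hz) (N₂.inv_mem n₂.2)
        have e2 : ((φ n : N₂) : K) * (((φ n : N₂) : K)⁻¹ * ((n : K)⁻¹ * n₁) * n₂) * (n₂ : K)⁻¹ =
            (n : K)⁻¹ * n₁ := by group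
        rwa [e2] at h5
      rw [hd, Subgroup.mem_bot, inv_mul_eq_one] at h4
      have h5 : n = n₁ := Subtype.ext h4
      rw [h5]

end Pool.Agent.STE
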