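import Pool.Agent.STE.Common

/-!
# Sharply transitive sets in a transitive group with two blocks

`C` is a transitive group of permutations that permutes the two sides `T` and `¬ T`, such that an
element that fixes a point fixes the whole side of this point. Then `C` contains a sharply transitive
set that contains `1`, `x`, `s`, `s * x`, where `x` preserves the sides and has no fixed point and `s`
exchanges the sides.
-/

set_option autoImplicit false

namespace Pool.Agent.STE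

variable {V : Type*} {C : Subgroup (Equiv.Perm V)} {T : V → Prop}

theorem pself (g : Equiv.Perm V) (v : V) : g (g⁻¹ v) = v := g.apply_symm_apply v

theorem pself2 (g : Equiv.Perm V) (v : V) : g⁻¹ (g v) = v := g.symm_apply_apply v

/-- The elements of `C` that preserve the two sides. -/
def sub (C : Subgroup (Equiv.Perm V)) (T : V → Prop) : Subgroup (Equiv.Perm V) where
  carrier := {c | c ∈ C ∧ ∀ v, T (c v) ↔ T v}
  one_mem' := ⟨C.one_mem, fun v => Iff.rfl⟩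
  mul_mem' := fun {a b} ha hb => ⟨C.mul_mem ha.1 hb.1, fun v => (ha.2 (b v)).trans (hb.2 v)⟩
  inv_mem' := fun {a} ha => ⟨C.inv_mem ha.1, fun v => by
    have h := ha.2 (a⁻¹ v)
    rw [pself] at h
    exact h.symm⟩

/-- The elements of `sub C T` that fix all points of the side `S`. -/
def fx (C : Subgroup (Equiv.Perm V)) (T S : V → Prop) : Subgroup (sub C T) where
  carrier := {c | ∀ v, S v → (c : Equiv.Perm V) v = v}
  one_mem' := fun v _ => rfl
  mul_mem' := fun {a b} ha hb v hv => by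
    change (a : Equiv.Perm V) ((b : Equiv.Perm V) v) = v
    rw [hb v hv, ha v hv]
  inv_mem' := fun {a} ha v hv => by
    change ((a : Equiv.Perm V))⁻¹ v = v
    rw [Equiv.Perm.inv_eq_iff_eq]
    exact (ha v hv).symm

theorem fx_normal (C : Subgroup (Equiv.Perm V)) (T S : V → Prop)
    (hS : ∀ k : sub C T, ∀ v, S v → S ((k : Equiv.Perm V) v)) : (fx C T S).Normal := by
  constructor
  intro n hn g v hv
  change (g : Equiv.Perm V) ((n : Equiv.Perm V) (((g⁻¹ : sub C T) : Equiv.Perm V) v)) = v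
  rw [hn _ (hS g⁻¹ v hv)]
  change (g : Equiv.Perm V) ((g : Equiv.Perm V)⁻¹ v) = v
  rw [pself]

theorem core [Finite V] [Nonempty V]
    (h1 : ∀ c ∈ C, ∀ u w, (T u ↔ T w) → (T (c u) ↔ T (c w)))
    (h2 : ∀ c ∈ C, ∀ u w, (T u ↔ T w) → c u = u → c w = w)
    (ht : ∀ u w, ∃ c ∈ C, c u = w)
    {s x : Equiv.Perm V} (hs : s ∈ C) (hx : x ∈ C) (hsT : ∀ v, T (s v) ↔ ¬ T v)
    (hxT : ∀ v, T (x v) ↔ T v) (hxf : ∀ v, x v ≠ v) :
    ∃ X : Set (Equiv.Perm V), X ⊆ C ∧ 1 ∈ X ∧ x ∈ X ∧ s ∈ X ∧ s * x ∈ X ∧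
      ∀ v w, ∃! c, c ∈ X ∧ c v = w := by
  classical
  have n1 : (fx C T T).Normal := fx_normal C T T fun k v hv => (k.2.2 v).2 hv
  have n2 : (fx C T (fun v => ¬ T v)).Normal :=
    fx_normal C T _ fun k v hv => fun h => hv ((k.2.2 v).1 h)
  have hd : fx C T T ⊓ fx C T (fun v => ¬ T v) = ⊥ := by
    rw [eq_bot_iff]
    rintro k ⟨hk1, hk2⟩
    rw [Subgroup.mem_bot]
    apply Subtype.ext
    ext v
    by_cases hv : T v
    · exact hk1 v hv
    · exact hk2 v hv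
  -- conjugation by an element that exchanges the sides
  have hsi : ∀ v, T (s⁻¹ v) ↔ ¬ T v := by
    intro v
    have h := hsT (s⁻¹ v)
    rw [pself] at h
    tauto
  have conj : ∀ (r : Equiv.Perm V), r ∈ C → (∀ v, T (r v) ↔ ¬ T v) → (∀ v, T (r⁻¹ v) ↔ ¬ T v) →
      ∀ k ∈ sub C T, r * k * r⁻¹ ∈ sub C T := by
    intro r hr hr1 hr2 k hk
    refine ⟨C.mul_mem (C.mul_mem hr hk.1) (C.inv_mem hr), fun v => ?_⟩
    change T (r (k (r⁻¹ v))) ↔ T v
    rw [hr1, hk.2, hr2, not_not]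
  have hcard : Nat.card (fx C T T) = Nat.card (fx C T (fun v => ¬ T v)) := by
    apply le_antisymm
    · refine Nat.card_le_card_of_injective (fun k => (⟨⟨s * (k : sub C T) * s⁻¹,
        conj s hs hsT hsi _ (k : sub C T).2⟩, ?_⟩ : fx C T (fun v => ¬ T v))) ?_
      · intro v hv
        change s ((((k : fx C T T) : sub C T) : Equiv.Perm V) (s⁻¹ v)) = v
        rw [k.2 _ ((hsi v).2 hv), pself]
      · intro k k' h
        have h3 := congrArg (fun z : fx C T (fun v => ¬ T v) => ((z : sub C T) : Equiv.Perm V)) h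
        simp only [mul_left_inj, mul_right_inj] at h3
        exact Subtype.ext (Subtype.ext h3)
    · have hi : ∀ v, T (s⁻¹⁻¹ v) ↔ ¬ T v := by
        intro v
        rw [inv_inv]
        exact hsT v
      refine Nat.card_le_card_of_injective (fun k => (⟨⟨s⁻¹ * (k : sub C T) * s⁻¹⁻¹,
        conj s⁻¹ (C.inv_mem hs) hsi hi _ (k : sub C T).2⟩, ?_⟩ : fx C T T)) ?_
      · intro v hv
        change s⁻¹ ((((k : fx C T (fun v => ¬ T v)) : sub C T) : Equiv.Perm V) (s⁻¹⁻¹ v)) = v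
        rw [k.2 _ (fun h => ((hi v).1 h) hv), pself]
      · intro k k' h
        have h3 := congrArg (fun z : fx C T T => ((z : sub C T) : Equiv.Perm V)) h
        simp only [mul_left_inj, mul_right_inj] at h3
        exact Subtype.ext (Subtype.ext h3)
  obtain ⟨v₀⟩ := ‹Nonempty V›
  obtain ⟨v₁, hv₁⟩ : ∃ v, T v := by
    by_cases h : T v₀
    · exact ⟨v₀, h⟩
    · exact ⟨s v₀, (hsT v₀).2 h⟩
  have hv₂ : ¬ T (s v₁) := fun h => (hsT v₁).1 h hv₁
  obtain ⟨Z, hZ1, hZx, hZ2, hZ3⟩ := common (fx C T T) (fx C T (fun v => ¬ T v)) hd hcard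
    (⟨x, hx, hxT⟩ : sub C T) (fun h => hxf v₁ (h v₁ hv₁)) (fun h => hxf (s v₁) (h (s v₁) hv₂))
  have hA : ∀ v w, (T v ↔ T w) → ∃! z : sub C T, z ∈ Z ∧ (z : Equiv.Perm V) v = w := by
    intro v w hvw
    obtain ⟨g, hg, hgv⟩ := ht v w
    have hgK : ∀ u, T (g u) ↔ T u := by
      intro u
      have a1 := h1 g hg u v
      have a2 := h1 g⁻¹ (C.inv_mem hg) (g u) (g v)
      rw [pself2, pself2] at a2
      rw [hgv] at a1 a2
      tauto
    have key : ∀ z : sub C T, (z : Equiv.Perm V) v = w ↔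
        ((z⁻¹ * ⟨g, hg, hgK⟩ : sub C T) : Equiv.Perm V) v = v := by
      intro z
      change _ ↔ (z : Equiv.Perm V)⁻¹ (g v) = v
      rw [Equiv.Perm.inv_eq_iff_eq, hgv, eq_comm]
    by_cases hv : T v
    · obtain ⟨z, hz, hzu⟩ := hZ2 ⟨g, hg, hgK⟩
      refine ⟨z, ⟨hz.1, (key z).2 (hz.2 v hv)⟩, fun z' hz' => hzu z' ⟨hz'.1, ?_⟩⟩
      intro u hu
      exact h2 _ (z'⁻¹ * ⟨g, hg, hgK⟩ : sub C T).2.1 v u (by tauto) ((key z').1 hz'.2)
    · obtain ⟨z, hz, hzu⟩ := hZ3 ⟨g, hg, hgK⟩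
      refine ⟨z, ⟨hz.1, (key z).2 (hz.2 v hv)⟩, fun z' hz' => hzu z' ⟨hz'.1, ?_⟩⟩
      intro u hu
      exact h2 _ (z'⁻¹ * ⟨g, hg, hgK⟩ : sub C T).2.1 v u (by tauto) ((key z').1 hz'.2)
  refine ⟨{c | ∃ z ∈ Z, c = (z : Equiv.Perm V) ∨ c = s * (z : Equiv.Perm V)}, ?_, ⟨1, hZ1, Or.inl rfl⟩,
    ⟨_, hZx, Or.inl rfl⟩, ⟨1, hZ1, Or.inr (by simp)⟩, ⟨_, hZx, Or.inr rfl⟩, fun v w => ?_⟩
  · rintro c ⟨z, -, rfl | rfl⟩
    · exact z.2.1
    · exact C.mul_mem hs z.2.1
  · by_cases hvw : T v ↔ T w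
    · obtain ⟨z, hz, hzu⟩ := hA v w hvw
      refine ⟨z, ⟨⟨z, hz.1, Or.inl rfl⟩, hz.2⟩, ?_⟩
      rintro c ⟨⟨z', hz', rfl | rfl⟩, hc⟩
      · rw [hzu z' ⟨hz', hc⟩]
      · exfalso
        have a1 := hsT ((z' : Equiv.Perm V) v)
        have a2 := z'.2.2 v
        have a3 : s ((z' : Equiv.Perm V) v) = w := hc
        rw [a3] at a1
        tauto
    · have hvw' : T v ↔ T (s⁻¹ w) := by
        have := hsi w
        tauto
      obtain ⟨z, hz, hzu⟩ := hA v (s⁻¹ w) hvw'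
      refine ⟨s * z, ⟨⟨z, hz.1, Or.inr rfl⟩, ?_⟩, ?_⟩
      · change s ((z : Equiv.Perm V) v) = w
        rw [hz.2, pself]
      · rintro c ⟨⟨z', hz', rfl | rfl⟩, hc⟩
        · exfalso
          have a2 := z'.2.2 v
          rw [hc] at a2
          tauto
        · have a3 : s ((z' : Equiv.Perm V) v) = w := hc
          have a4 : (z' : Equiv.Perm V) v = s⁻¹ w := by
            rw [← a3, pself2]
          rw [hzu z' ⟨hz', a4⟩]

end Pool.Agent.STE
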