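import Pool.Agent.STE.Fact

/-!
# Regular groups, and normal series with cyclic factors
-/

set_option autoImplicit false

namespace Pool.Agent.STE

open Equiv

variable {V : Type} {E : V → V → Prop} {G : Subgroup (Perm V)}

theorem reach (hc : ∀ v w, Relation.ReflTransGen E v w) {F₁ F₂ : Perm V} (hF : IsFac E F₁ F₂)
    (v w : V) : ∃ c ∈ (Subgroup.closure {F₁, F₂} : Subgroup (Perm V)), c v = w := by
  induction hc v w with
  | refl => exact ⟨1, Subgroup.one_mem _, rfl⟩
  | tail _ hbc ih =>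
    obtain ⟨c, hc, rfl⟩ := ih
    rcases (hF.2 _ _).1 hbc with rfl | rfl
    · exact ⟨F₁ * c, Subgroup.mul_mem _ (Subgroup.subset_closure (by simp)) hc, rfl⟩
    · exact ⟨F₂ * c, Subgroup.mul_mem _ (Subgroup.subset_closure (by simp)) hc, rfl⟩

/-- everything in the closure commutes with the group `R` -/
theorem comm_cl {R : Subgroup (Perm V)} {F₁ F₂ : Perm V}
    (h1 : ∀ r ∈ R, ∀ v, F₁ (r v) = r (F₁ v)) (h2 : ∀ r ∈ R, ∀ v, F₂ (r v) = r (F₂ v))
    {c : Perm V} (hc : c ∈ (Subgroup.closure {F₁, F₂} : Subgroup (Perm V))) :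
    ∀ r ∈ R, ∀ v, c (r v) = r (c v) := by
  induction hc using Subgroup.closure_induction with
  | mem x hx =>
    rcases hx with rfl | rfl
    · exact h1
    · exact h2
  | one => intro r _ v; rfl
  | mul x y _ _ hx hy =>
    intro r hr v
    rw [Perm.mul_apply, hy r hr, hx r hr]
    rfl
  | inv x _ hx =>
    intro r hr v
    rw [Perm.inv_eq_iff_eq, hx r hr, ps1]

/-- The case of a group of automorphisms that acts regularly (Cayley digraphs). -/
theorem regular [Finite V] (hE : Dig E) (hG : G ≤ autGroup E)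
    (hT : ∀ v w, ∃ g ∈ G, g v = w) (hs : ∀ h ∈ G, ∀ v, h v = v → h = 1) : HasSTE E := by
  obtain ⟨F₁, F₂, S⟩ := exists_setup hE hG hT le_rfl
    (fun g hg h hh => G.mul_mem (G.mul_mem hg hh) (G.inv_mem hg)) hs (fun _ w w' _ _ => hT w w')
  refine ⟨F₁, F₂, S.fac, (Subgroup.closure {F₁, F₂} : Subgroup (Perm V)), fun x hx => hx,
    Subgroup.one_mem _, Subgroup.subset_closure (by simp), Subgroup.subset_closure (by simp),
    fun v w => ?_⟩
  obtain ⟨c, hc, e⟩ := reach hE.conn S.fac v w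
  refine ⟨c, ⟨hc, e⟩, ?_⟩
  rintro c' ⟨hc', e'⟩
  ext u
  obtain ⟨g, hg, rfl⟩ := hT v u
  rw [comm_cl S.c1 S.c2 hc' g hg, comm_cl S.c1 S.c2 hc g hg, e, e']

/-- A permutation in the automorphism group that fixes a vertex and fixes the out-neighbours of
the vertices that it fixes is the identity. -/
theorem fix_all (hc : ∀ v w, Relation.ReflTransGen E v w) {x : Perm V} {v : V} (hv : x v = v)
    (h : ∀ u w, x u = u → E u w → x w = w) : x = 1 := by
  ext w
  rw [Perm.one_apply]
  induction hc v w with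
  | refl => exact hv
  | tail _ hbc ih => exact h _ _ ih hbc

/-- A normal series with cyclic factors below a nilpotent normal subgroup whose orbits contain
both out-neighbours of every vertex. -/
theorem crit [Finite V] [Nonempty V] (hE : Dig E) (hG : G ≤ autGroup E)
    (hT : ∀ v w, ∃ g ∈ G, g v = w) (N : ℕ → Subgroup (Perm V)) (n : ℕ) (h0 : N 0 = ⊥)
    (hNG : ∀ i, N i ≤ G) (hNn : ∀ i, ∀ g ∈ G, ∀ h ∈ N i, g * h * g⁻¹ ∈ N i)
    (hmono : ∀ i, N i ≤ N (i + 1))
    (hcyc : ∀ i, ∀ g ∈ G, ∀ x ∈ N (i + 1), ∃ b : ℤ, g⁻¹ * x * g * (x ^ b)⁻¹ ∈ N i)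
    (hnil : Group.IsNilpotent (N n))
    (hw : ∀ v w w', E v w → E v w' → ∃ h ∈ N n, h w = w') : HasSTE E := by
  classical
  have hex : ∃ i, ∀ v w w', E v w → E v w' → ∃ h ∈ N i, h w = w' := ⟨n, hw⟩
  obtain ⟨t, ht1, ht2⟩ : ∃ t, (∀ v w w', E v w → E v w' → ∃ h ∈ N t, h w = w') ∧
      ∀ i < t, ¬ ∀ v w w', E v w → E v w' → ∃ h ∈ N i, h w = w' :=
    ⟨Nat.find hex, Nat.find_spec hex, fun i hi => Nat.find_min hex hi⟩
  have htn : t ≤ n := by
    by_contra h
    exact ht2 n (by omega) hw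
  rcases t with _ | s
  · exfalso
    obtain ⟨v⟩ := ‹Nonempty V›
    obtain ⟨a, b, hab, e⟩ := Set.ncard_eq_two.1 (hE.out v)
    have ha : E v a := by
      have : a ∈ {w | E v w} := by rw [e]; simp
      exact this
    have hb : E v b := by
      have : b ∈ {w | E v w} := by rw [e]; simp
      exact this
    obtain ⟨h, hh, e2⟩ := ht1 v a b ha hb
    rw [h0, Subgroup.mem_bot] at hh
    rw [hh] at e2
    exact hab e2
  have hs := ht2 s (by omega)
  push Not at hs
  obtain ⟨v₀, w₀, w₁, hw₀, hw₁, hne⟩ := hs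
  have hw01 : w₀ ≠ w₁ := fun h => hne 1 (Subgroup.one_mem _) h
  have hset : ∀ w, E v₀ w → w = w₀ ∨ w = w₁ := by
    intro w hw
    obtain ⟨a, b, hab, e⟩ := Set.ncard_eq_two.1 (hE.out v₀)
    have h1 : ∀ u, E v₀ u ↔ u = a ∨ u = b := by
      intro u
      have h1 : u ∈ {w | E v₀ w} ↔ u ∈ ({a, b} : Set V) := by rw [e]
      simpa using h1
    have a1 := (h1 _).1 hw
    have a2 := (h1 _).1 hw₀
    have a3 := (h1 _).1 hw₁
    rcases a1 with rfl | rfl <;> rcases a2 with rfl | rfl <;> rcases a3 with rfl | rfl <;>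
      simp_all
  -- different orbits
  have hA : ∀ v w w', E v w → E v w' → (∃ h ∈ N s, h w = w') → w = w' := by
    rintro v w w' h1 h2 ⟨h, hh, e⟩
    obtain ⟨g, hg, rfl⟩ := hT v v₀
    by_contra hww
    have h1' : E (g v) (g w) := (hG hg v w).2 h1
    have h2' : E (g v) (g w') := (hG hg v w').2 h2
    have e1 : (g * h * g⁻¹) (g w) = g w' := by
      rw [Perm.mul_apply, Perm.mul_apply, ps2, e]
    have hm := hNn s g hg h hh
    rcases hset _ h1' with h3 | h3 <;> rcases hset _ h2' with h4 | h4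
    · exact hww (g.injective (h3.trans h4.symm))
    · rw [h3, h4] at e1
      exact hne _ hm e1
    · rw [h3, h4] at e1
      refine hne _ (Subgroup.inv_mem _ hm) ?_
      rw [← e1, ps2]
    · exact hww (g.injective (h3.trans h4.symm))
  -- semiregularity
  have hsemi : ∀ x ∈ N (s + 1), ∀ v, x v = v → x = 1 := by
    intro x hx v hv
    have hxb : ∀ b : ℤ, (x ^ b) v = v := by
      intro b
      exact Function.IsFixedPt.perm_zpow (x := v) (show Function.IsFixedPt x v from hv) b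
    have hZ : ∀ u, ∃ z ∈ N s, x u = z u := by
      intro u
      obtain ⟨g, hg, rfl⟩ := hT v u
      obtain ⟨b, hb⟩ := hcyc s g hg x hx
      refine ⟨_, hNn s g hg _ hb, ?_⟩
      have e : g * (g⁻¹ * x * g * (x ^ b)⁻¹) * g⁻¹ = x * g * (x ^ b)⁻¹ * g⁻¹ := by group
      rw [e]
      simp only [Perm.mul_apply, ps2]
      rw [← zpow_neg, hxb]
    refine fix_all hE.conn hv fun u w hu huw => ?_
    obtain ⟨z, hz, e⟩ := hZ w
    have h1 : E u (x w) := by
      have := (hG (hNG _ hx) u w).2 huw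
      rwa [hu] at this
    exact (hA u w (x w) huw h1 ⟨z, hz, e.symm⟩).symm
  have hle : N (s + 1) ≤ N n := by
    have : ∀ i j, i ≤ j → N i ≤ N j := by
      intro i j hij
      induction hij with
      | refl => exact le_rfl
      | step _ ih => exact ih.trans (hmono _)
    exact this _ _ htn
  have hnil' : Group.IsNilpotent (N (s + 1)) := by
    rw [Subgroup.isNilpotent_iff_lowerCentralSeries] at hnil ⊢
    obtain ⟨c, hc⟩ := hnil
    refine ⟨c, ?_⟩
    rw [eq_bot_iff, ← hc]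
    exact lcs_mono hle c
  exact nil hE hG hT (hNG _) (hNn _) hsemi hnil' ht1

end Pool.Agent.STE
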