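import Mathlib

/-!
# Digraphs of out-degree 2, 1-factorizations and sharply transitive evaluation sets

`Dig E`: the digraph with vertex set `V` and arc relation `E` has no loops, every vertex has in-degree
and out-degree `2`, and it is strongly connected. `IsAut E g`: the permutation `g` is an automorphism.
`IsFac E F₁ F₂`: the permutations `F₁`, `F₂` form a 1-factorization (every arc `v → w` satisfies
exactly one of `w = F₁ v`, `w = F₂ v`). `HasSTE E`: there are a 1-factorization `F₁`, `F₂` and a set
`X` of elements of the group generated by `F₁` and `F₂` with `1, F₁, F₂ ∈ X` such that for all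
vertices `v`, `w` exactly one element of `X` maps `v` to `w`.
-/

set_option autoImplicit false

namespace Pool.Agent.STE

/-- The digraph `E` on `V` has no loops, in-degree and out-degree `2` and is strongly connected. -/
structure Dig {V : Type} (E : V → V → Prop) : Prop where
  irr : ∀ v, ¬ E v v
  out : ∀ v, {w | E v w}.ncard = 2
  inn : ∀ v, {w | E w v}.ncard = 2
  conn : ∀ v w, Relation.ReflTransGen E v w

/-- `g` is an automorphism of the digraph `E`. -/
def IsAut {V : Type} (E : V → V → Prop) (g : Equiv.Perm V) : Prop :=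
  ∀ v w, E (g v) (g w) ↔ E v w

/-- `(F₁, F₂)` is a 1-factorization of the digraph `E`. -/
def IsFac {V : Type} (E : V → V → Prop) (F₁ F₂ : Equiv.Perm V) : Prop :=
  (∀ v, F₁ v ≠ F₂ v) ∧ ∀ v w, E v w ↔ w = F₁ v ∨ w = F₂ v

/-- Q1 for the digraph `E`: some 1-factorization `(F₁, F₂)` has a sharply transitive evaluation set
that includes `{∅, F₁, F₂}`. -/
def HasSTE {V : Type} (E : V → V → Prop) : Prop :=
  ∃ F₁ F₂ : Equiv.Perm V, IsFac E F₁ F₂ ∧ ∃ X : Set (Equiv.Perm V),
    X ⊆ (Subgroup.closure {F₁, F₂} : Subgroup (Equiv.Perm V)) ∧ 1 ∈ X ∧ F₁ ∈ X ∧ F₂ ∈ X ∧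
      ∀ v w, ∃! x, x ∈ X ∧ x v = w

/-- `g` is an automorphism of the digraph `E` as a member of the automorphism group. -/
def autGroup {V : Type} (E : V → V → Prop) : Subgroup (Equiv.Perm V) where
  carrier := {g | IsAut E g}
  one_mem' := fun v w => Iff.rfl
  mul_mem' := fun {a b} ha hb v w => (ha (b v) (b w)).trans (hb v w)
  inv_mem' := fun {a} ha v w => by
    have h := ha (a⁻¹ v) (a⁻¹ w)
    have h1 : ∀ u, a (a⁻¹ u) = u := fun u => a.apply_symm_apply u
    rw [h1, h1] at h
    exact h.symm

theorem mem_autGroup {V : Type} {E : V → V → Prop} {g : Equiv.Perm V} :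
    g ∈ autGroup E ↔ IsAut E g := Iff.rfl

end Pool.Agent.STE
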