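import Pool.Agent.STE.Nil

/-!
# Existence of a factorization that commutes with a semiregular normal subgroup
-/

set_option autoImplicit false

namespace Pool.Agent.STE

open Equiv

variable {V : Type} {E : V → V → Prop} {G H : Subgroup (Perm V)}

theorem exists_setup [Finite V] (hE : Dig E) (hG : G ≤ autGroup E)
    (hT : ∀ v w, ∃ g ∈ G, g v = w) (hHG : H ≤ G) (hn : ∀ g ∈ G, ∀ h ∈ H, g * h * g⁻¹ ∈ H)
    (hs : ∀ h ∈ H, ∀ v, h v = v → h = 1)
    (hw : ∀ v w w', E v w → E v w' → ∃ h ∈ H, h w = w') :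
    ∃ F₁ F₂ : Perm V, Setup E G H F₁ F₂ := by
  classical
  let S : Setoid V :=
    { r := fun u v => ∃ h ∈ H, h u = v
      iseqv :=
        { refl := fun u => ⟨1, H.one_mem, rfl⟩
          symm := by
            rintro u v ⟨h, hh, rfl⟩
            exact ⟨h⁻¹, H.inv_mem hh, ps2 _ _⟩
          trans := by
            rintro u v w ⟨h, hh, rfl⟩ ⟨h', hh', rfl⟩
            exact ⟨h' * h, H.mul_mem hh' hh, rfl⟩ } }
  obtain ⟨q, hq⟩ : ∃ q : V → Quotient S, q = fun v => Quotient.mk S v := ⟨_, rfl⟩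
  have hq1 : ∀ u v, q u = q v ↔ ∃ h ∈ H, h u = v := by
    intro u v
    rw [hq]
    exact Quotient.eq (r := S)
  have hqs : Function.Surjective q := by
    rw [hq]
    exact Quotient.mk_surjective
  obtain ⟨ρ, hρ⟩ : ∃ ρ : V → V, ρ = fun v => Function.surjInv hqs (q v) := ⟨_, rfl⟩
  have hρq : ∀ v, q (ρ v) = q v := by
    intro v
    rw [hρ]
    exact Function.surjInv_eq hqs _
  have hρh : ∀ h ∈ H, ∀ v, ρ (h v) = ρ v := by
    intro h hh v
    have e : q (h v) = q v := ((hq1 v (h v)).2 ⟨h, hh, rfl⟩).symm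
    rw [hρ]
    simp only [e]
  choose t ht1 ht2 using fun v => (hq1 (ρ v) v).1 (hρq v)
  have huniq : ∀ (h h' : Perm V), h ∈ H → h' ∈ H → ∀ v, h v = h' v → h = h' := by
    intro h h' hh hh' v e
    have e1 : (h'⁻¹ * h) v = v := by
      rw [Perm.mul_apply, e, ps2]
    exact (inv_mul_eq_one.1 (hs _ (H.mul_mem (H.inv_mem hh') hh) v e1)).symm
  have hth : ∀ h ∈ H, ∀ v, t (h v) = h * t v := by
    intro h hh v
    refine huniq _ _ (ht1 _) (H.mul_mem hh (ht1 v)) (ρ v) ?_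
    rw [← hρh h hh v, ht2, Perm.mul_apply, hρh h hh v, ht2]
  have hout : ∀ v, ∃ a b, a ≠ b ∧ ∀ w, E v w ↔ w = a ∨ w = b := by
    intro v
    obtain ⟨a, b, hab, e⟩ := Set.ncard_eq_two.1 (hE.out v)
    refine ⟨a, b, hab, fun w => ?_⟩
    have h1 : w ∈ {w | E v w} ↔ w ∈ ({a, b} : Set V) := by rw [e]
    simpa using h1
  choose a b hab hE1 using hout
  obtain ⟨f₁, hf₁⟩ : ∃ f : V → V, f = fun v => t v (a (ρ v)) := ⟨_, rfl⟩
  obtain ⟨f₂, hf₂⟩ : ∃ f : V → V, f = fun v => t v (b (ρ v)) := ⟨_, rfl⟩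
  have hEf : ∀ v w, E v w ↔ w = f₁ v ∨ w = f₂ v := by
    intro v w
    have h1 := hG (hHG (ht1 v)) (ρ v) ((t v)⁻¹ w)
    rw [ht2, ps1] at h1
    rw [h1, hE1, hf₁, hf₂, Perm.inv_eq_iff_eq, Perm.inv_eq_iff_eq]
  have hne : ∀ v, f₁ v ≠ f₂ v := by
    intro v h
    rw [hf₁, hf₂] at h
    exact hab _ ((t v).injective h)
  have hc1 : ∀ h ∈ H, ∀ v, f₁ (h v) = h (f₁ v) := by
    intro h hh v
    rw [hf₁]
    simp only
    rw [hth h hh, hρh h hh]
    rfl
  have hc2 : ∀ h ∈ H, ∀ v, f₂ (h v) = h (f₂ v) := by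
    intro h hh v
    rw [hf₂]
    simp only
    rw [hth h hh, hρh h hh]
    rfl
  have hqf : ∀ v, q (f₁ v) = q (f₂ v) := by
    intro v
    rw [hq1]
    exact hw v _ _ ((hEf v _).2 (Or.inl rfl)) ((hEf v _).2 (Or.inr rfl))
  have hqr : ∀ u v, q u = q v → q (f₁ u) = q (f₁ v) := by
    intro u v h
    obtain ⟨k, hk, rfl⟩ := (hq1 u v).1 h
    rw [hq1, hc1 k hk]
    exact ⟨k, hk, rfl⟩
  let φ : Quotient S → Quotient S := fun x => q (f₁ (Function.surjInv hqs x))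
  have hφq : ∀ v, φ (q v) = q (f₁ v) := by
    intro v
    exact hqr _ _ (Function.surjInv_eq hqs _)
  have hφs : Function.Surjective φ := by
    intro x
    obtain ⟨w, rfl⟩ := hqs x
    have h1 : {u | E u w}.Nonempty := by
      rw [← Set.ncard_pos, hE.inn w]
      norm_num
    obtain ⟨u, hu⟩ := h1
    refine ⟨q u, ?_⟩
    rw [hφq]
    rcases (hEf u w).1 hu with rfl | rfl
    · rfl
    · exact hqf u
  have hφi : Function.Injective φ := Finite.injective_iff_surjective.2 hφs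
  have hi : ∀ f : V → V, (∀ v, q (f v) = q (f₁ v)) → (∀ h ∈ H, ∀ v, f (h v) = h (f v)) →
      Function.Injective f := by
    intro f h1 h2 u v huv
    have h3 : q u = q v := by
      apply hφi
      rw [hφq, hφq, ← h1, ← h1, huv]
    obtain ⟨k, hk, rfl⟩ := (hq1 u v).1 h3
    rw [h2 k hk] at huv
    rw [hs k hk _ huv.symm]
    rfl
  refine ⟨Equiv.ofBijective f₁ (Finite.injective_iff_bijective.1 (hi f₁ (fun _ => rfl) hc1)),
    Equiv.ofBijective f₂ (Finite.injective_iff_bijective.1 (hi f₂ (fun v => (hqf v).symm) hc2)),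
    ?_⟩
  refine ⟨fun g hg => hG hg, hT, hn, ⟨hne, hEf⟩, hc1, hc2, fun v => ?_⟩
  obtain ⟨h, hh, e⟩ := (hq1 _ _).1 (hqf v)
  exact ⟨h, hh, e.symm⟩

/-- A nilpotent semiregular normal subgroup whose orbits contain both out-neighbours of every
vertex. -/
theorem nil [Finite V] [Nonempty V] (hE : Dig E) (hG : G ≤ autGroup E)
    (hT : ∀ v w, ∃ g ∈ G, g v = w) (hHG : H ≤ G) (hn : ∀ g ∈ G, ∀ h ∈ H, g * h * g⁻¹ ∈ H)
    (hs : ∀ h ∈ H, ∀ v, h v = v → h = 1) (hnil : Group.IsNilpotent H)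
    (hw : ∀ v w w', E v w → E v w' → ∃ h ∈ H, h w = w') : HasSTE E := by
  obtain ⟨F₁, F₂, S⟩ := exists_setup hE hG hT hHG hn hs hw
  exact S.main hE.conn hs hnil

end Pool.Agent.STE
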