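import Mathlib

/-!
# Hall `2'`-subgroups of finite solvable groups
-/

set_option autoImplicit false

namespace Pool.Agent.STE

open scoped commutatorElement

/-- A nontrivial finite solvable group has a nontrivial normal `p`-subgroup. -/
theorem exists_normal_p {G : Type} [Group G] [Finite G] [Nontrivial G] (hs : Group.IsSolvable G) :
    ∃ (p : ℕ) (N : Subgroup G), p.Prime ∧ N.Normal ∧ N ≠ ⊥ ∧ IsPGroup p N := by
  classical
  obtain ⟨n, hn⟩ := hs.solvable
  have hex : ∃ n, derivedSeries G n = ⊥ := ⟨n, hn⟩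
  obtain ⟨m, hm1, hm2⟩ : ∃ m, derivedSeries G m = ⊥ ∧ ∀ j < m, derivedSeries G j ≠ ⊥ :=
    ⟨Nat.find hex, Nat.find_spec hex, fun j hj => Nat.find_min hex hj⟩
  rcases m with _ | j
  · rw [derivedSeries_zero] at hm1
    exact absurd hm1 (by simp)
  have hj := hm2 j (by omega)
  obtain ⟨A, hA⟩ : ∃ A, A = derivedSeries G j := ⟨_, rfl⟩
  have hAn : A.Normal := hA ▸ derivedSeries_normal G j
  rw [derivedSeries_succ, ← hA] at hm1
  rw [← hA] at hj
  have hcomm : ∀ a ∈ A, ∀ b ∈ A, a * b = b * a := by
    intro a ha b hb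
    have h1 : ⁅a, b⁆ ∈ (⊥ : Subgroup G) := by
      rw [← hm1]
      exact Subgroup.commutator_mem_commutator ha hb
    rw [Subgroup.mem_bot, commutatorElement_eq_one_iff_mul_comm] at h1
    exact h1
  have hcard : Nat.card A ≠ 1 := by
    intro h
    exact hj (Subgroup.card_eq_one.1 h)
  obtain ⟨p, hp, hpd⟩ := Nat.exists_prime_and_dvd hcard
  have : Fact p.Prime := ⟨hp⟩
  let N : Subgroup G :=
    { carrier := {x | x ∈ A ∧ ∃ k : ℕ, x ^ (p ^ k) = 1}
      one_mem' := ⟨A.one_mem, 0, by simp⟩
      mul_mem' := by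
        rintro a b ⟨ha, k, hk⟩ ⟨hb, l, hl⟩
        refine ⟨A.mul_mem ha hb, k + l, ?_⟩
        have hc : Commute a b := hcomm a ha b hb
        rw [hc.mul_pow, pow_add, pow_mul, hk, one_pow, one_mul, mul_comm, pow_mul, hl, one_pow]
      inv_mem' := by
        rintro a ⟨ha, k, hk⟩
        exact ⟨A.inv_mem ha, k, by rw [inv_pow, hk, inv_one]⟩ }
  refine ⟨p, N, hp, ⟨?_⟩, ?_, ?_⟩
  · rintro a ⟨ha, k, hk⟩ g
    refine ⟨hAn.conj_mem a ha g, k, ?_⟩
    rw [conj_pow, hk]
    group
  · intro h
    obtain ⟨x, hx⟩ := exists_prime_orderOf_dvd_card' (G := A) p hpd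
    have h1 : (x : G) ∈ N := by
      refine ⟨x.2, 1, ?_⟩
      rw [pow_one, ← hx]
      have := pow_orderOf_eq_one x
      exact_mod_cast congrArg (fun z : A => (z : G)) this
    rw [h, Subgroup.mem_bot] at h1
    have h2 : x = 1 := Subtype.ext h1
    rw [h2, orderOf_one] at hx
    exact hp.one_lt.ne hx
  · rintro ⟨x, hx, k, hk⟩
    exact ⟨k, Subtype.ext hk⟩

/-- A finite solvable group has a subgroup of odd order whose index is a power of two. -/
theorem hall (n : ℕ) : ∀ (G : Type) [Group G] [Finite G], Group.IsSolvable G → Nat.card G = n →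
    ∃ R : Subgroup G, Odd (Nat.card R) ∧ ∃ s : ℕ, R.index = 2 ^ s := by
  induction n using Nat.strong_induction_on with
  | _ n ih =>
    intro G _ _ hs hn
    rcases subsingleton_or_nontrivial G with h | h
    · refine ⟨⊤, ?_, 0, by simp⟩
      rw [Subgroup.card_top, Nat.card_unique]
      exact odd_one
    obtain ⟨p, N, hp, hN, hNb, hNp⟩ := exists_normal_p hs
    have : Fact p.Prime := ⟨hp⟩
    have hlt : Nat.card (G ⧸ N) < n := by
      have h1 := Subgroup.card_eq_card_quotient_mul_card_subgroup N
      have h2 : 1 < Nat.card N := by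
        have h3 : 0 < Nat.card N := Nat.card_pos
        by_contra h4
        exact hNb (Subgroup.card_eq_one.1 (by omega))
      have h3 : 0 < Nat.card (G ⧸ N) := Nat.card_pos
      rw [← hn, h1]
      nlinarith
    obtain ⟨R', hR'1, s, hR's⟩ := ih _ hlt (G ⧸ N) inferInstance rfl
    obtain ⟨K, hK⟩ : ∃ K, K = R'.comap (QuotientGroup.mk' N) := ⟨_, rfl⟩
    have hNK : N ≤ K := by
      intro x hx
      rw [hK, Subgroup.mem_comap]
      have : QuotientGroup.mk' N x = 1 := by
        rw [← MonoidHom.mem_ker, QuotientGroup.ker_mk']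
        exact hx
      rw [this]
      exact R'.one_mem
    have hKi : K.index = 2 ^ s := by
      rw [hK, Subgroup.index_comap_of_surjective _ (QuotientGroup.mk'_surjective N), hR's]
    have hKc : Nat.card K = Nat.card N * Nat.card R' := by
      have h1 := Subgroup.card_mul_index K
      have h2 := Subgroup.card_mul_index R'
      have h3 := Subgroup.card_eq_card_quotient_mul_card_subgroup N
      rw [hKi] at h1
      rw [hR's] at h2
      have h4 : 0 < 2 ^ s := by positivity
      apply Nat.eq_of_mul_eq_mul_right h4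
      rw [h1, h3, ← h2]
      ring
    obtain ⟨b, hb⟩ := (IsPGroup.iff_card).1 hNp
    by_cases hp2 : p = 2
    · -- Schur-Zassenhaus
      have hNn : (N.subgroupOf K).Normal := inferInstance
      have hc1 : Nat.card (N.subgroupOf K) = 2 ^ b := by
        rw [Nat.card_congr (Subgroup.subgroupOfEquivOfLe hNK).toEquiv, hb, hp2]
      have hc2 : (N.subgroupOf K).index = Nat.card R' := by
        have h1 := Subgroup.card_mul_index (N.subgroupOf K)
        rw [hKc, hc1, hb, hp2] at h1
        exact Nat.eq_of_mul_eq_mul_left (by positivity) h1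
      have hcop : Nat.Coprime (Nat.card (N.subgroupOf K)) (N.subgroupOf K).index := by
        rw [hc1, hc2]
        exact Nat.Coprime.pow_left b (Nat.coprime_two_left.2 hR'1)
      obtain ⟨R, hR⟩ := Subgroup.exists_right_complement'_of_coprime hcop
      have hRc : Nat.card R = Nat.card R' := by
        rw [← hc2, hR.symm.index_eq_card]
      refine ⟨R.map K.subtype, ?_, s + b, ?_⟩
      · rw [Nat.card_congr (Subgroup.equivMapOfInjective R K.subtype K.subtype_injective).toEquiv.symm,
          hRc]
        exact hR'1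
      · have h1 := Subgroup.card_mul_index (R.map K.subtype)
        rw [Nat.card_congr (Subgroup.equivMapOfInjective R K.subtype
          K.subtype_injective).toEquiv.symm, hRc, ← Subgroup.card_mul_index K, hKc, hKi, hb, hp2]
          at h1
        have h2 : 0 < Nat.card R' := Nat.card_pos
        apply Nat.eq_of_mul_eq_mul_left h2
        rw [h1, pow_add]
        ring
    · refine ⟨K, ?_, s, hKi⟩
      rw [hKc, hb]
      exact ((hp.odd_of_ne_two hp2).pow).mul hR'1

end Pool.Agent.STE
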