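import Pool.Agent.STE.Orders
import Pool.Agent.STE.Hall

/-!
# Families of digraphs for which the answer is positive
-/

set_option autoImplicit false

namespace Pool.Agent.STE

open Equiv

variable {V : Type} {E : V → V → Prop}

theorem odd_fix [Finite V] (hE : Dig E) {x : Perm V} (hx : IsAut E x) (ho : Odd (orderOf x))
    {v : V} (hv : x v = v) : x = 1 := by
  refine fix_all hE.conn hv fun u w hu huw => ?_
  by_contra hne
  have h1 : E u (x w) := by
    have := (hx u w).2 huw
    rwa [hu] at this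
  have h2 : E u (x (x w)) := by
    have := (hx u (x w)).2 h1
    rwa [hu] at this
  obtain ⟨a, b, hab, e⟩ := Set.ncard_eq_two.1 (hE.out u)
  have h3 : ∀ z, E u z ↔ z = a ∨ z = b := by
    intro z
    have h1 : z ∈ {w | E u w} ↔ z ∈ ({a, b} : Set V) := by rw [e]
    simpa using h1
  have h4 : x (x w) ≠ x w := fun h => hne (x.injective h)
  have h5 : x (x w) = w := by
    rcases (h3 _).1 huw with a1 | a1 <;> rcases (h3 _).1 h1 with a2 | a2 <;>
      rcases (h3 _).1 h2 with a3 | a3
    · exact a3.trans a1.symm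
    · exact absurd (a2.trans a1.symm) hne
    · exact a3.trans a1.symm
    · exact absurd (a3.trans a2.symm) h4
    · exact absurd (a3.trans a2.symm) h4
    · exact a3.trans a1.symm
    · exact absurd (a2.trans a1.symm) hne
    · exact a3.trans a1.symm
  obtain ⟨m, hm⟩ := ho
  have h6 : ∀ j : ℕ, (x ^ (2 * j)) w = w := by
    intro j
    induction j with
    | zero => rfl
    | succ j ih =>
      have e1 : x ^ (2 * (j + 1)) = x * x * x ^ (2 * j) := by
        rw [← pow_two, ← pow_add]
        congr 1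
        ring
      rw [e1, Perm.mul_apply, ih, Perm.mul_apply, h5]
  have h7 : (x ^ orderOf x) w = x w := by
    rw [hm, pow_succ', Perm.mul_apply, h6]
  rw [pow_orderOf_eq_one] at h7
  exact hne h7.symm

theorem odd_semi [Finite V] (hE : Dig E) {R : Subgroup (Perm V)} (hR : R ≤ autGroup E)
    (ho : Odd (Nat.card R)) : ∀ h ∈ R, ∀ v, h v = v → h = 1 := by
  intro h hh v hv
  refine odd_fix hE (hR hh) ?_ hv
  have h1 : orderOf h ∣ Nat.card R := by
    have := orderOf_dvd_natCard (⟨h, hh⟩ : R)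
    rwa [Subgroup.orderOf_mk] at this
  exact ho.of_dvd_nat h1

theorem card_dvd [Finite V] [Nonempty V] {G : Subgroup (Perm V)}
    (hT : ∀ v w, ∃ g ∈ G, g v = w) : Nat.card V ∣ Nat.card G := by
  obtain ⟨v⟩ := ‹Nonempty V›
  have hpt : MulAction.IsPretransitive G V := ⟨fun v w => by
    obtain ⟨g, hg, e⟩ := hT v w
    exact ⟨⟨g, hg⟩, e⟩⟩
  rw [← MulAction.index_stabilizer_of_transitive G v]
  exact Subgroup.index_dvd_card _

/-- Orders that are prime powers. -/
theorem order_pp [Finite V] [Nonempty V] (hE : Dig E)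
    (hT : ∀ v w, ∃ g, IsAut E g ∧ g v = w) {p k : ℕ} (hp : p.Prime) (hn : Nat.card V = p ^ k) :
    HasSTE E := by
  have : Fact p.Prime := ⟨hp⟩
  obtain ⟨P, hP, hPp, hPT⟩ := sylow_tr (G := autGroup E) hT hn
  have hnil : Group.IsNilpotent P := hPp.isNilpotent
  exact super hE hP hPT (nil_super hnil)

/-- Solvable groups and orders that are not divisible by `4`. -/
theorem solv [Finite V] [Nonempty V] (hE : Dig E) {G : Subgroup (Perm V)}
    (hG : G ≤ autGroup E) (hT : ∀ v w, ∃ g ∈ G, g v = w) (hs : Group.IsSolvable G)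
    (h4 : ¬ 4 ∣ Nat.card V) : HasSTE E := by
  obtain ⟨R', hodd, s, hs'⟩ := hall _ G hs rfl
  obtain ⟨R, hR⟩ : ∃ R, R = R'.map G.subtype := ⟨_, rfl⟩
  have hRc : Nat.card R = Nat.card R' := by
    rw [hR, Nat.card_congr (Subgroup.equivMapOfInjective R' G.subtype
      G.subtype_injective).toEquiv.symm]
  have hRG : R ≤ G := by
    rw [hR]
    rintro _ ⟨x, -, rfl⟩
    exact x.2
  have hd := card_dvd hT
  rw [← Subgroup.card_mul_index R', hs'] at hd
  refine two_orbits hE (hRG.trans hG) (odd_semi hE (hRG.trans hG) (hRc ▸ hodd)) ?_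
  rw [hRc]
  have hV : 0 < Nat.card V := Nat.card_pos
  have hRp : 0 < Nat.card R' := Nat.card_pos
  rcases Nat.even_or_odd (Nat.card V) with he | ho
  · obtain ⟨m, hm⟩ := he
    have hm2 : Odd m := by
      rcases Nat.even_or_odd m with h1 | h1
      · obtain ⟨l, hl⟩ := h1
        exact absurd ⟨l, by omega⟩ h4
      · exact h1
    have h1 : m ∣ Nat.card R' * 2 ^ s := Dvd.dvd.trans ⟨2, by omega⟩ hd
    have h2 : m ∣ Nat.card R' := Nat.Coprime.dvd_of_dvd_mul_right
      (Nat.Coprime.pow_right s (Nat.coprime_two_right.2 hm2)) h1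
    have h3 := Nat.le_of_dvd hRp h2
    omega
  · have h2 : Nat.card V ∣ Nat.card R' := Nat.Coprime.dvd_of_dvd_mul_right
      (Nat.Coprime.pow_right s (Nat.coprime_two_right.2 ho)) hd
    have h3 := Nat.le_of_dvd hRp h2
    omega

/-- Orders `2 p ^ k`. -/
theorem order_tpp [Finite V] [Nonempty V] (hE : Dig E)
    (hT : ∀ v w, ∃ g, IsAut E g ∧ g v = w) {p k : ℕ} (hp : p.Prime)
    (hn : Nat.card V = 2 * p ^ k) : HasSTE E := by
  by_cases hp2 : p = 2
  · subst hp2
    exact order_pp hE hT Nat.prime_two (k := k + 1) (by rw [hn, pow_succ, mul_comm])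
  have : Fact p.Prime := ⟨hp⟩
  obtain ⟨S⟩ : Nonempty (Sylow p (autGroup E)) := Sylow.nonempty
  obtain ⟨R, hR⟩ : ∃ R, R = (S : Subgroup (autGroup E)).map (autGroup E).subtype := ⟨_, rfl⟩
  have hRc : Nat.card R = Nat.card S := by
    rw [hR, Nat.card_congr (Subgroup.equivMapOfInjective (S : Subgroup (autGroup E)) _
      (autGroup E).subtype_injective).toEquiv.symm]
  have hRG : R ≤ autGroup E := by
    rw [hR]
    rintro _ ⟨x, -, rfl⟩
    exact x.2
  obtain ⟨b, hb⟩ := (IsPGroup.iff_card).1 S.2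
  have hodd : Odd (Nat.card R) := by
    rw [hRc]
    change Odd (Nat.card (S : Subgroup (autGroup E)))
    rw [hb]
    exact (hp.odd_of_ne_two hp2).pow
  refine two_orbits hE hRG (odd_semi hE hRG hodd) ?_
  have hd := card_dvd (G := autGroup E) hT
  have h1 : p ^ k ∣ Nat.card (autGroup E) := Dvd.dvd.trans ⟨2, by rw [hn, mul_comm]⟩ hd
  have h2 : p ^ k ∣ Nat.card S := by
    rw [S.card_eq_multiplicity]
    exact Nat.pow_dvd_pow p ((hp.pow_dvd_iff_le_factorization Nat.card_pos.ne').1 h1)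
  have h3 := Nat.le_of_dvd Nat.card_pos h2
  rw [hn, hRc]
  omega

end Pool.Agent.STE
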