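import Pool.Agent.STE.Loc
import Pool.Agent.STE.Alg

/-!
# The conjugates of `F₁⁻¹ F₂` by the powers of `F₁`, and their behaviour under automorphisms
-/

set_option autoImplicit false

namespace Pool.Agent.STE

open Equiv

open scoped commutatorElement

variable {V : Type} {E : V → V → Prop} {G H : Subgroup (Perm V)} {F₁ F₂ : Perm V}

/-- The conjugates of `F₁⁻¹ F₂` by the powers of `F₁`. -/
def kk (F₁ F₂ : Perm V) (j : ℕ) : Perm V := (F₁ ^ j)⁻¹ * (F₁⁻¹ * F₂) * F₁ ^ j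

/-- The group generated by the conjugates. -/
def K0 (F₁ F₂ : Perm V) : Subgroup (Perm V) := Subgroup.closure (Set.range (kk F₁ F₂))

/-- The standing assumptions. -/
structure Setup (E : V → V → Prop) (G H : Subgroup (Perm V)) (F₁ F₂ : Perm V) : Prop where
  aut : ∀ g ∈ G, IsAut E g
  tr : ∀ v w, ∃ g ∈ G, g v = w
  nor : ∀ g ∈ G, ∀ h ∈ H, g * h * g⁻¹ ∈ H
  fac : IsFac E F₁ F₂
  c1 : ∀ h ∈ H, ∀ v, F₁ (h v) = h (F₁ v)
  c2 : ∀ h ∈ H, ∀ v, F₂ (h v) = h (F₂ v)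
  same : ∀ v, ∃ h ∈ H, F₂ v = h (F₁ v)

theorem kk_mem (j : ℕ) : kk F₁ F₂ j ∈ K0 F₁ F₂ := Subgroup.subset_closure ⟨j, rfl⟩

theorem kk_zero : kk F₁ F₂ 0 = F₁⁻¹ * F₂ := by
  unfold kk
  simp

theorem kk_succ (j : ℕ) : F₁⁻¹ * kk F₁ F₂ j * F₁ = kk F₁ F₂ (j + 1) := by
  unfold kk
  rw [pow_succ]
  group

theorem kk_pred (j : ℕ) : F₁ * kk F₁ F₂ (j + 1) * F₁⁻¹ = kk F₁ F₂ j := by
  rw [← kk_succ]
  group

theorem kk_per [Finite V] : kk F₁ F₂ (orderOf F₁) = kk F₁ F₂ 0 := by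
  unfold kk
  rw [pow_orderOf_eq_one, pow_zero]

theorem K0_conj' [Finite V] : ∀ x ∈ K0 F₁ F₂, F₁⁻¹ * x * F₁ ∈ K0 F₁ F₂ := by
  intro x hx
  induction hx using Subgroup.closure_induction with
  | mem x hx =>
    obtain ⟨j, rfl⟩ := hx
    rw [kk_succ]
    exact kk_mem _
  | one => simp
  | mul x y _ _ hx hy =>
    have e : F₁⁻¹ * (x * y) * F₁ = (F₁⁻¹ * x * F₁) * (F₁⁻¹ * y * F₁) := by group
    rw [e]
    exact Subgroup.mul_mem _ hx hy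
  | inv x _ hx =>
    have e : F₁⁻¹ * x⁻¹ * F₁ = (F₁⁻¹ * x * F₁)⁻¹ := by group
    rw [e]
    exact Subgroup.inv_mem _ hx

theorem K0_conj [Finite V] : ∀ x ∈ K0 F₁ F₂, F₁ * x * F₁⁻¹ ∈ K0 F₁ F₂ := by
  intro x hx
  induction hx using Subgroup.closure_induction with
  | mem x hx =>
    obtain ⟨j, rfl⟩ := hx
    rcases j with _ | j
    · have h1 := orderOf_pos F₁
      obtain ⟨n, hn⟩ : ∃ n, orderOf F₁ = n + 1 := ⟨orderOf F₁ - 1, by omega⟩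
      rw [← kk_per, hn, kk_pred]
      exact kk_mem _
    · rw [kk_pred]
      exact kk_mem _
  | one => simp
  | mul x y _ _ hx hy =>
    have e : F₁ * (x * y) * F₁⁻¹ = (F₁ * x * F₁⁻¹) * (F₁ * y * F₁⁻¹) := by group
    rw [e]
    exact Subgroup.mul_mem _ hx hy
  | inv x _ hx =>
    have e : F₁ * x⁻¹ * F₁⁻¹ = (F₁ * x * F₁⁻¹)⁻¹ := by group
    rw [e]
    exact Subgroup.inv_mem _ hx

theorem Setup.k_mem (S : Setup E G H F₁ F₂) : F₁⁻¹ * F₂ ∈ KH H := by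
  refine ⟨fun h hh v => ?_, fun v => ?_⟩
  · rw [Perm.mul_apply, S.c2 h hh, Perm.inv_eq_iff_eq, S.c1 h hh, Perm.mul_apply, ps1]
  · obtain ⟨h, hh, e⟩ := S.same v
    refine ⟨h, hh, ?_⟩
    rw [Perm.mul_apply, e, ← S.c1 h hh, ps2]

theorem Setup.c1p (S : Setup E G H F₁ F₂) (j : ℕ) : ∀ h ∈ H, ∀ v, (F₁ ^ j) (h v) =
    h ((F₁ ^ j) v) := by
  intro h hh
  induction j with
  | zero => intro v; rfl
  | succ j ih =>
    intro v
    rw [pow_succ', Perm.mul_apply, ih, S.c1 h hh]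
    rfl

theorem Setup.kk_KH (S : Setup E G H F₁ F₂) (j : ℕ) : kk F₁ F₂ j ∈ KH H := by
  have h1 := S.k_mem
  refine ⟨fun h hh v => ?_, fun v => ?_⟩
  · unfold kk
    rw [Perm.mul_apply, Perm.mul_apply, S.c1p j h hh, KH_comm h1 hh, Perm.inv_eq_iff_eq,
      S.c1p j h hh]
    simp only [Perm.mul_apply, ps1]
  · obtain ⟨h, hh, e⟩ := KH_orb h1 ((F₁ ^ j) v)
    refine ⟨h, hh, ?_⟩
    unfold kk
    rw [Perm.mul_apply, Perm.mul_apply, e, Perm.inv_eq_iff_eq, S.c1p j h hh]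

theorem Setup.K0_KH (S : Setup E G H F₁ F₂) : K0 F₁ F₂ ≤ KH H := by
  unfold K0
  rw [Subgroup.closure_le]
  rintro _ ⟨j, rfl⟩
  exact S.kk_KH j

theorem Setup.nor' (S : Setup E G H F₁ F₂) : ∀ g ∈ G, ∀ h ∈ H, g⁻¹ * h * g ∈ H := by
  intro g hg h hh
  have := S.nor g⁻¹ (G.inv_mem hg) h hh
  rwa [inv_inv] at this

theorem Setup.conj_KH (S : Setup E G H F₁ F₂) {g z : Perm V} (hg : g ∈ G) (hz : z ∈ KH H) :
    g⁻¹ * z * g ∈ KH H := KH_conj (S.nor g hg) (S.nor' g hg) hz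

/-- The behaviour of the conjugates of `F₁⁻¹ F₂` under automorphisms. -/
theorem Setup.good_kk (S : Setup E G H F₁ F₂) (j : ℕ) {g : Perm V} (hg : g ∈ G) (v : V) :
    ∃ s : ℤ, (s = 1 ∨ s = -1) ∧ ∃ κ ∈ K0 F₁ F₂,
      (g⁻¹ * kk F₁ F₂ j * g) v = (κ⁻¹ * kk F₁ F₂ j ^ s * κ) v := by
  obtain ⟨A, hA⟩ : ∃ A, A = g⁻¹ * F₁ * g := ⟨_, rfl⟩
  obtain ⟨B, hB⟩ : ∃ B, B = g⁻¹ * F₂ * g := ⟨_, rfl⟩
  obtain ⟨k, hk⟩ : ∃ k, k = F₁⁻¹ * F₂ := ⟨_, rfl⟩
  have hkH : k ∈ KH H := hk ▸ S.k_mem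
  have hF2 : ∀ u, F₂ u = F₁ (k u) := by
    intro u
    rw [hk, Perm.mul_apply, ps1]
  have hgh : ∀ h ∈ H, ∀ u, g (h u) = (g * h * g⁻¹) (g u) := by
    intro h _ u
    rw [Perm.mul_apply, Perm.mul_apply, ps2]
  have hAH : ∀ h ∈ H, ∀ u, A (h u) = h (A u) := by
    intro h hh u
    rw [hA, Perm.mul_apply, Perm.mul_apply, hgh h hh, S.c1 _ (S.nor g hg h hh), Perm.mul_apply,
      Perm.mul_apply, ps2]
    rfl
  have hAp : ∀ n : ℕ, ∀ h ∈ H, ∀ u, (A ^ n) (h u) = h ((A ^ n) u) := by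
    intro n h hh
    induction n with
    | zero => intro u; rfl
    | succ n ih =>
      intro u
      rw [pow_succ', Perm.mul_apply, ih, hAH h hh]
      rfl
  have hE1 : ∀ u, E u (A u) := by
    intro u
    rw [← S.aut g hg]
    have e : g (A u) = F₁ (g u) := by
      rw [hA, Perm.mul_apply, Perm.mul_apply, ps1]
    rw [e]
    exact (S.fac.2 _ _).2 (Or.inl rfl)
  have hE2 : ∀ u, E u (B u) := by
    intro u
    rw [← S.aut g hg]
    have e : g (B u) = F₂ (g u) := by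
      rw [hB, Perm.mul_apply, Perm.mul_apply, ps1]
    rw [e]
    exact (S.fac.2 _ _).2 (Or.inr rfl)
  have hAB : ∀ u, A u ≠ B u := by
    intro u h
    rw [hA, hB, Perm.mul_apply, Perm.mul_apply, Perm.mul_apply, Perm.mul_apply] at h
    exact S.fac.1 (g u) (g⁻¹.injective h)
  have hpat : ∀ u, (A u = F₁ u ∧ B u = F₂ u) ∨ (A u = F₂ u ∧ B u = F₁ u) := by
    intro u
    rcases (S.fac.2 _ _).1 (hE1 u) with h1 | h1 <;> rcases (S.fac.2 _ _).1 (hE2 u) with h2 | h2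
    · exact absurd (h1.trans h2.symm) (hAB u)
    · exact Or.inl ⟨h1, h2⟩
    · exact Or.inr ⟨h1, h2⟩
    · exact absurd (h1.trans h2.symm) (hAB u)
  have hAj : ∀ n : ℕ, ∃ κ ∈ K0 F₁ F₂, (A ^ n) v = (F₁ ^ n * κ) v := by
    intro n
    induction n with
    | zero => exact ⟨1, Subgroup.one_mem _, rfl⟩
    | succ n ih =>
      obtain ⟨κ, hκ, e⟩ := ih
      rw [pow_succ', Perm.mul_apply, e]
      rcases hpat ((F₁ ^ n * κ) v) with h | h
      · refine ⟨κ, hκ, ?_⟩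
        rw [h.1, pow_succ']
        rfl
      · refine ⟨kk F₁ F₂ n * κ, Subgroup.mul_mem _ (kk_mem n) hκ, ?_⟩
        rw [h.1, hF2, hk, pow_succ']
        unfold kk
        simp only [Perm.mul_apply, ps1]
  have hAB2 : ∀ u, ∃ s : ℤ, (s = 1 ∨ s = -1) ∧ (A⁻¹ * B) u = (k ^ s) u := by
    intro u
    rcases hpat u with h | h
    · refine ⟨1, Or.inl rfl, ?_⟩
      obtain ⟨h', hh', e⟩ := KH_orb hkH u
      rw [Perm.mul_apply, Perm.inv_eq_iff_eq, zpow_one, e, hAH h' hh', h.1, ← S.c1 h' hh', ← e,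
        h.2, hF2]
    · refine ⟨-1, Or.inr rfl, ?_⟩
      obtain ⟨h', hh', e⟩ := KH_orb ((KH H).inv_mem hkH) u
      rw [Perm.mul_apply, Perm.inv_eq_iff_eq, zpow_neg, zpow_one, e, hAH h' hh', h.1,
        ← S.c2 h' hh', ← e, h.2, hF2, ps1]
  obtain ⟨κ, hκ, e⟩ := hAj j
  obtain ⟨s, hs, e2⟩ := hAB2 ((A ^ j) v)
  refine ⟨s, hs, κ, hκ, ?_⟩
  have e3 : g⁻¹ * kk F₁ F₂ j * g = (A ^ j)⁻¹ * (A⁻¹ * B) * A ^ j := by
    have e4 : ∀ n : ℕ, A ^ n = g⁻¹ * F₁ ^ n * g := by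
      intro n
      rw [hA]
      have := conj_pow (a := g⁻¹) (b := F₁) (i := n)
      rwa [inv_inv] at this
    unfold kk
    rw [e4, hA, hB]
    group
  have hr : κ⁻¹ * kk F₁ F₂ j ^ s * κ ∈ KH H := by
    have h1 := S.K0_KH hκ
    exact (KH H).mul_mem ((KH H).mul_mem ((KH H).inv_mem h1) ((KH H).zpow_mem (S.kk_KH j) s)) h1
  obtain ⟨h', hh', e5⟩ := KH_orb hr v
  rw [e3, Perm.mul_apply, Perm.mul_apply, Perm.inv_eq_iff_eq, e2, e5, hAp j h' hh', e,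
    Perm.mul_apply, ← S.c1p j h' hh', ← KH_comm (S.K0_KH hκ) hh', ← e5]
  have e6 : kk F₁ F₂ j ^ s = (F₁ ^ j)⁻¹ * k ^ s * F₁ ^ j := by
    unfold kk
    rw [← hk]
    have := conj_zpow (a := (F₁ ^ j)⁻¹) (b := k) (i := s)
    rwa [inv_inv] at this
  rw [e6]
  simp only [Perm.mul_apply, ps1]

/-- `x` is mapped by automorphisms to `x` or `x⁻¹` modulo `U`. -/
def Good (G U : Subgroup (Perm V)) (x : Perm V) : Prop :=
  ∀ g ∈ G, ∀ v, ∃ s : ℤ, (s = 1 ∨ s = -1) ∧ ∃ y ∈ U, (g⁻¹ * x * g) v = (y * x ^ s) v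

/-- `U` is compatible with automorphisms. -/
def Comp (G U : Subgroup (Perm V)) : Prop :=
  ∀ g ∈ G, ∀ u ∈ U, ∀ v, ∃ u' ∈ U, (g⁻¹ * u * g) v = u' v

theorem Good.mono {U W : Subgroup (Perm V)} {x : Perm V} (h : Good G U x) (hU : U ≤ W) :
    Good G W x := by
  intro g hg v
  obtain ⟨s, hs, y, hy, e⟩ := h g hg v
  exact ⟨s, hs, y, hU hy, e⟩

/-- The terms of the lower central series. -/
def Ga (F₁ F₂ : Perm V) (n : ℕ) : Subgroup (Perm V) := (K0 F₁ F₂).lowerCentralSeries n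

theorem Ga_zero : Ga F₁ F₂ 0 = K0 F₁ F₂ := rfl

theorem Ga_succ (n : ℕ) : Ga F₁ F₂ (n + 1) = ⁅Ga F₁ F₂ n, K0 F₁ F₂⁆ := rfl

theorem Ga_anti {m n : ℕ} (h : m ≤ n) : Ga F₁ F₂ n ≤ Ga F₁ F₂ m :=
  (K0 F₁ F₂).lowerCentralSeries_antitone h

theorem Ga_le (n : ℕ) : Ga F₁ F₂ n ≤ K0 F₁ F₂ := Ga_anti (Nat.zero_le n)

theorem Ga_conj (n : ℕ) : ∀ κ ∈ K0 F₁ F₂, ∀ u ∈ Ga F₁ F₂ n, κ * u * κ⁻¹ ∈ Ga F₁ F₂ n := by
  intro κ hκ u hu
  have h1 := (K0 F₁ F₂).self_le_normalizer_lowerCentralSeries n hκ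
  exact (Subgroup.mem_normalizer_iff.1 h1 u).1 hu

theorem Ga_comm {n : ℕ} {x z : Perm V} (hx : x ∈ Ga F₁ F₂ n) (hz : z ∈ K0 F₁ F₂) :
    ⁅x, z⁆ ∈ Ga F₁ F₂ (n + 1) := Subgroup.commutator_mem_commutator hx hz

theorem Setup.good_kk0 (S : Setup E G H F₁ F₂) (j : ℕ) : Good G (Ga F₁ F₂ 1) (kk F₁ F₂ j) := by
  intro g hg v
  obtain ⟨s, hs, κ, hκ, e⟩ := S.good_kk j hg v
  refine ⟨s, hs, ⁅κ⁻¹, kk F₁ F₂ j ^ s⁆, ?_, ?_⟩
  · exact Ga_comm (n := 0) (Subgroup.inv_mem _ hκ) (Subgroup.zpow_mem _ (kk_mem j) s)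
  · rw [e]
    congr 1
    rw [commutatorElement_def]
    group

theorem Setup.good_comm (S : Setup E G H F₁ F₂) {n : ℕ} {x : Perm V} (hx : x ∈ Ga F₁ F₂ n)
    (hg : Good G (Ga F₁ F₂ (n + 1)) x) (j : ℕ) :
    Good G (Ga F₁ F₂ (n + 2)) ⁅x, kk F₁ F₂ j⁆ := by
  intro g hgG v
  obtain ⟨s, hs, y, hy, e1⟩ := hg g hgG v
  obtain ⟨t, ht, κ, hκ, e2⟩ := S.good_kk j hgG v
  have hxK : x ∈ K0 F₁ F₂ := Ga_le n hx
  have hyK : y ∈ K0 F₁ F₂ := Ga_le (n + 1) hy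
  obtain ⟨y', hy', e3⟩ := alg2 (K0 F₁ F₂) (Ga F₁ F₂ (n + 2)) (Ga_conj (n + 2)) hxK hyK
    (kk_mem j) hκ (fun c hc d hd => Ga_comm (Ga_comm hx hc) hd) (fun d hd => Ga_comm hy hd) s t hs
  refine ⟨s * t, ?_, y', hy', ?_⟩
  · rcases hs with rfl | rfl <;> rcases ht with rfl | rfl <;> simp
  · have e4 : g⁻¹ * ⁅x, kk F₁ F₂ j⁆ * g = ⁅g⁻¹ * x * g, g⁻¹ * kk F₁ F₂ j * g⁆ := by
      simp only [commutatorElement_def]
      group
    rw [e4, ← e3]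
    have m1 := S.K0_KH hxK
    have m2 := S.K0_KH hyK
    have m3 := S.K0_KH hκ
    exact ag_comm (S.conj_KH hgG m1) ((KH H).mul_mem m2 ((KH H).zpow_mem m1 s))
      (S.conj_KH hgG (S.kk_KH j)) ((KH H).mul_mem ((KH H).mul_mem ((KH H).inv_mem m3)
        ((KH H).zpow_mem (S.kk_KH j) t)) m3) e1 e2

/-- The good elements of the `n`-th term generate it modulo the next term. -/
theorem Setup.gen (S : Setup E G H F₁ F₂) (n : ℕ) : Ga F₁ F₂ n ≤ Ga F₁ F₂ (n + 1) ⊔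
    Subgroup.closure {x | x ∈ Ga F₁ F₂ n ∧ Good G (Ga F₁ F₂ (n + 1)) x} := by
  induction n with
  | zero =>
    refine le_trans ?_ le_sup_right
    change K0 F₁ F₂ ≤ _
    unfold K0
    rw [Subgroup.closure_le]
    rintro _ ⟨j, rfl⟩
    exact Subgroup.subset_closure ⟨kk_mem j, S.good_kk0 j⟩
  | succ n ih =>
    obtain ⟨M, hM⟩ : ∃ M, M = Ga F₁ F₂ (n + 1 + 1) ⊔
      Subgroup.closure {x | x ∈ Ga F₁ F₂ (n + 1) ∧ Good G (Ga F₁ F₂ (n + 1 + 1)) x} := ⟨_, rfl⟩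
    rw [← hM]
    have hM1 : Ga F₁ F₂ (n + 2) ≤ M := hM ▸ le_sup_left
    have hM2 : ∀ x, x ∈ Ga F₁ F₂ (n + 1) → Good G (Ga F₁ F₂ (n + 1 + 1)) x → x ∈ M := by
      intro x h1 h2
      rw [hM]
      exact (le_sup_right : _ ≤ Ga F₁ F₂ (n + 1 + 1) ⊔ _) (Subgroup.subset_closure ⟨h1, h2⟩)
    have hMle : M ≤ Ga F₁ F₂ (n + 1) := by
      rw [hM]
      refine sup_le (Ga_anti (by omega)) ?_
      rw [Subgroup.closure_le]
      exact fun x hx => hx.1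
    have hMn : ∀ κ ∈ K0 F₁ F₂, ∀ u ∈ M, κ * u * κ⁻¹ ∈ M := by
      intro κ hκ u hu
      have e : κ * u * κ⁻¹ = ⁅u, κ⁆⁻¹ * u := by
        rw [commutatorElement_def]
        group
      rw [e]
      exact M.mul_mem (M.inv_mem (hM1 (Ga_comm (hMle hu) hκ))) hu
    -- first step
    have h1 : ∀ x, x ∈ Ga F₁ F₂ n → Good G (Ga F₁ F₂ (n + 1)) x → ∀ b ∈ K0 F₁ F₂, ⁅x, b⁆ ∈ M := by
      intro x hx hg b hb
      unfold K0 at hb
      induction hb using Subgroup.closure_induction with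
      | mem b hb =>
        obtain ⟨j, rfl⟩ := hb
        exact hM2 _ (Ga_comm hx (kk_mem j)) (S.good_comm hx hg j)
      | one => simp
      | mul b c hb _ hb' hc' =>
        have e : ⁅x, b * c⁆ = ⁅x, b⁆ * (b * ⁅x, c⁆ * b⁻¹) := by
          simp only [commutatorElement_def]
          group
        rw [e]
        exact M.mul_mem hb' (hMn b hb _ hc')
      | inv b hb hb' =>
        have e : ⁅x, b⁻¹⁆ = b⁻¹ * ⁅x, b⁆⁻¹ * b⁻¹⁻¹ := by
          simp only [commutatorElement_def]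
          group
        rw [e]
        exact hMn _ (Subgroup.inv_mem _ hb) _ (M.inv_mem hb')
    have h2 : ∀ a ∈ Ga F₁ F₂ n, ∀ b ∈ K0 F₁ F₂, ⁅a, b⁆ ∈ M := by
      intro a ha b hb
      have ha' := ih ha
      rw [Subgroup.sup_eq_closure] at ha'
      clear ha
      have hle : Subgroup.closure ((Ga F₁ F₂ (n + 1) : Set (Perm V)) ∪
          (Subgroup.closure {x | x ∈ Ga F₁ F₂ n ∧ Good G (Ga F₁ F₂ (n + 1)) x} :
            Subgroup (Perm V))) ≤ K0 F₁ F₂ := by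
        rw [← Subgroup.sup_eq_closure]
        refine sup_le (Ga_le _) ?_
        rw [Subgroup.closure_le]
        exact fun x hx => Ga_le n hx.1
      have hmul : ∀ a a' : Perm V, a ∈ K0 F₁ F₂ → ⁅a, b⁆ ∈ M → ⁅a', b⁆ ∈ M →
          ⁅a * a', b⁆ ∈ M := by
        intro a a' haK h3 h4
        have e : ⁅a * a', b⁆ = (a * ⁅a', b⁆ * a⁻¹) * ⁅a, b⁆ := by
          simp only [commutatorElement_def]
          group
        rw [e]
        exact M.mul_mem (hMn a haK _ h4) h3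
      have hinv : ∀ a : Perm V, a ∈ K0 F₁ F₂ → ⁅a, b⁆ ∈ M → ⁅a⁻¹, b⁆ ∈ M := by
        intro a haK h3
        have e : ⁅a⁻¹, b⁆ = a⁻¹ * ⁅a, b⁆⁻¹ * a⁻¹⁻¹ := by
          simp only [commutatorElement_def]
          group
        rw [e]
        exact hMn _ (Subgroup.inv_mem _ haK) _ (M.inv_mem h3)
      induction ha' using Subgroup.closure_induction with
      | mem a ha =>
        rcases ha with ha | ha
        · exact hM1 (Ga_comm ha hb)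
        · have ha2 : a ∈ Subgroup.closure
              {x | x ∈ Ga F₁ F₂ n ∧ Good G (Ga F₁ F₂ (n + 1)) x} := ha
          have hle2 : Subgroup.closure {x | x ∈ Ga F₁ F₂ n ∧ Good G (Ga F₁ F₂ (n + 1)) x} ≤
              K0 F₁ F₂ := by
            rw [Subgroup.closure_le]
            exact fun x hx => Ga_le n hx.1
          clear ha
          induction ha2 using Subgroup.closure_induction with
          | mem a ha => exact h1 a ha.1 ha.2 b hb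
          | one => simp
          | mul a a' h5 _ h6 h7 => exact hmul a a' (hle2 h5) h6 h7
          | inv a h5 h6 => exact hinv a (hle2 h5) h6
      | one => simp
      | mul a a' h5 _ h6 h7 => exact hmul a a' (hle h5) h6 h7
      | inv a h5 h6 => exact hinv a (hle h5) h6
    rw [Ga_succ, Subgroup.commutator_le]
    exact fun a ha b hb => h2 a ha b hb

end Pool.Agent.STE
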