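import Pool.Agent.STE.Step

/-!
# Permutations that commute with a group and preserve its orbits
-/

set_option autoImplicit false

namespace Pool.Agent.STE

open Equiv

open scoped commutatorElement

variable {V : Type} {H : Subgroup (Perm V)}

/-- The permutations that commute with `H` and preserve all orbits of `H`. -/
def KH (H : Subgroup (Perm V)) : Subgroup (Perm V) where
  carrier := {z | (∀ h ∈ H, ∀ v, z (h v) = h (z v)) ∧ ∀ v, ∃ h ∈ H, z v = h v}
  one_mem' := ⟨fun _ _ _ => rfl, fun _ => ⟨1, H.one_mem, rfl⟩⟩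
  mul_mem' := by
    rintro a b ⟨ha, ha'⟩ ⟨hb, hb'⟩
    refine ⟨fun h hh v => ?_, fun v => ?_⟩
    · rw [Perm.mul_apply, hb h hh, ha h hh]
      rfl
    · obtain ⟨h, hh, e⟩ := hb' v
      obtain ⟨h', hh', e'⟩ := ha' v
      refine ⟨h * h', H.mul_mem hh hh', ?_⟩
      rw [Perm.mul_apply, e, ha h hh, e']
      rfl
  inv_mem' := by
    rintro a ⟨ha, ha'⟩
    refine ⟨fun h hh v => ?_, fun v => ?_⟩
    · rw [Perm.inv_eq_iff_eq, ha h hh, ps1]
    · obtain ⟨h, hh, e⟩ := ha' (a⁻¹ v)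
      rw [ps1] at e
      refine ⟨h⁻¹, H.inv_mem hh, ?_⟩
      conv_rhs => rw [e]
      rw [ps2]

theorem KH_comm {z h : Perm V} (hz : z ∈ KH H) (hh : h ∈ H) (v : V) : z (h v) = h (z v) :=
  hz.1 h hh v

theorem KH_orb {z : Perm V} (hz : z ∈ KH H) (v : V) : ∃ h ∈ H, z v = h v := hz.2 v

variable {a a' b b' : Perm V} {v : V}

theorem ag_mul (ha : a ∈ KH H) (ha' : a' ∈ KH H) (hb : b ∈ KH H) (h1 : a v = a' v)
    (h2 : b v = b' v) : (a * b) v = (a' * b') v := by
  obtain ⟨h, hh, e⟩ := KH_orb hb v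
  rw [Perm.mul_apply, Perm.mul_apply, ← h2, e, KH_comm ha hh, KH_comm ha' hh, h1]

theorem ag_inv (ha : a ∈ KH H) (ha' : a' ∈ KH H) (h1 : a v = a' v) : a⁻¹ v = a'⁻¹ v := by
  obtain ⟨h, hh, e⟩ := KH_orb ha v
  have e' : a' v = h v := h1.symm.trans e
  have e1 : a⁻¹ v = h⁻¹ v := by
    rw [Perm.inv_eq_iff_eq, KH_comm ha (H.inv_mem hh), e, ps2]
  have e2 : a'⁻¹ v = h⁻¹ v := by
    rw [Perm.inv_eq_iff_eq, KH_comm ha' (H.inv_mem hh), e', ps2]
  rw [e1, e2]

theorem ag_pow (ha : a ∈ KH H) (ha' : a' ∈ KH H) (h1 : a v = a' v) (n : ℕ) :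
    (a ^ n) v = (a' ^ n) v := by
  induction n with
  | zero => rfl
  | succ n ih =>
    rw [pow_succ', pow_succ']
    exact ag_mul ha ha' ((KH H).pow_mem ha n) h1 ih

theorem ag_zpow (ha : a ∈ KH H) (ha' : a' ∈ KH H) (h1 : a v = a' v) (n : ℤ) :
    (a ^ n) v = (a' ^ n) v := by
  obtain ⟨m, rfl | rfl⟩ := n.eq_nat_or_neg
  · rw [zpow_natCast, zpow_natCast]
    exact ag_pow ha ha' h1 m
  · rw [zpow_neg, zpow_neg, zpow_natCast, zpow_natCast]
    exact ag_inv ((KH H).pow_mem ha m) ((KH H).pow_mem ha' m) (ag_pow ha ha' h1 m)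

theorem ag_comm (ha : a ∈ KH H) (ha' : a' ∈ KH H) (hb : b ∈ KH H) (hb' : b' ∈ KH H)
    (h1 : a v = a' v) (h2 : b v = b' v) : ⁅a, b⁆ v = ⁅a', b'⁆ v := by
  have i1 := (KH H).inv_mem ha
  have i1' := (KH H).inv_mem ha'
  have i2 := (KH H).inv_mem hb
  rw [commutatorElement_def, commutatorElement_def]
  refine ag_mul ((KH H).mul_mem ((KH H).mul_mem ha hb) i1)
    ((KH H).mul_mem ((KH H).mul_mem ha' hb') i1') i2 ?_ (ag_inv hb hb' h2)
  refine ag_mul ((KH H).mul_mem ha hb) ((KH H).mul_mem ha' hb') i1 ?_ (ag_inv ha ha' h1)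
  exact ag_mul ha ha' hb h1 h2

/-- The group of the automorphisms normalizes `KH H`. -/
theorem KH_conj {g z : Perm V} (hn : ∀ h ∈ H, g * h * g⁻¹ ∈ H) (hn' : ∀ h ∈ H, g⁻¹ * h * g ∈ H)
    (hz : z ∈ KH H) : g⁻¹ * z * g ∈ KH H := by
  refine ⟨fun h hh v => ?_, fun v => ?_⟩
  · have e : g (h v) = (g * h * g⁻¹) (g v) := by
      rw [Perm.mul_apply, Perm.mul_apply, ps2]
    rw [Perm.mul_apply, Perm.mul_apply, e, KH_comm hz (hn h hh), Perm.mul_apply, Perm.mul_apply,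
      ps2]
    rfl
  · obtain ⟨h, hh, e⟩ := KH_orb hz (g v)
    refine ⟨g⁻¹ * h * g, hn' h hh, ?_⟩
    rw [Perm.mul_apply, Perm.mul_apply, e]
    rfl

open Classical in
/-- If `H` is nilpotent and semiregular then `KH H` is nilpotent. -/
theorem KH_nil [Finite V] (hs : ∀ h ∈ H, ∀ v, h v = v → h = 1) [Group.IsNilpotent H] :
    Group.IsNilpotent (KH H) := by
  choose f hf1 hf2 using fun (z : KH H) (v : V) => KH_orb z.2 v
  have huniq : ∀ (h h' : Perm V), h ∈ H → h' ∈ H → ∀ v, h v = h' v → h = h' := by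
    intro h h' hh hh' v e
    have e1 : (h'⁻¹ * h) v = v := by
      rw [Perm.mul_apply, e, ps2]
    exact (inv_mul_eq_one.1 (hs _ (H.mul_mem (H.inv_mem hh') hh) v e1)).symm
  let φ : KH H →* (V → H) :=
    { toFun := fun z v => ⟨(f z v)⁻¹, H.inv_mem (hf1 z v)⟩
      map_one' := by
        funext v
        apply Subtype.ext
        change (f 1 v)⁻¹ = 1
        rw [inv_eq_one]
        exact huniq _ _ (hf1 1 v) H.one_mem v (hf2 1 v).symm
      map_mul' := by
        intro a b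
        funext v
        apply Subtype.ext
        change (f (a * b) v)⁻¹ = (f a v)⁻¹ * (f b v)⁻¹
        rw [← mul_inv_rev]
        congr 1
        refine huniq _ _ (hf1 _ v) (H.mul_mem (hf1 b v) (hf1 a v)) v ?_
        rw [← hf2 (a * b) v]
        change (a : Perm V) ((b : Perm V) v) = _
        rw [hf2 b v, KH_comm a.2 (hf1 b v), hf2 a v]
        rfl }
  have hφ : Function.Injective φ := by
    intro a b hab
    apply Subtype.ext
    ext v
    have h1 := congrArg (fun z : V → H => ((z v : H) : Perm V)) hab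
    have h2 : (f a v)⁻¹ = (f b v)⁻¹ := h1
    rw [inv_inj] at h2
    rw [hf2 a v, hf2 b v, h2]
  exact Subgroup.isNilpotent_of_ker_le_center φ (by
    rw [(MonoidHom.ker_eq_bot_iff φ).2 hφ]
    exact bot_le)

end Pool.Agent.STE
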