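import Pool.Agent.STE.Good

/-!
# Digraphs with a nilpotent semiregular normal subgroup with cyclic quotient digraph
-/

set_option autoImplicit false

namespace Pool.Agent.STE

open Equiv

open scoped commutatorElement

variable {V : Type} {E : V → V → Prop} {G H : Subgroup (Perm V)} {F₁ F₂ : Perm V}

/-- The statement for the induction along the series. -/
structure Lev (G : Subgroup (Perm V)) (F₁ F₂ : Perm V) (U : Subgroup (Perm V))
    (T : Set (Perm V)) : Prop where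
  le : U ≤ K0 F₁ F₂
  nor : ∀ κ ∈ K0 F₁ F₂, ∀ u ∈ U, κ * u * κ⁻¹ ∈ U
  comp : Comp G U
  ex : ∃ Y : Set (Perm V), (∀ y ∈ Y, y ∈ K0 F₁ F₂) ∧ (∀ t ∈ T, t ∈ Y) ∧ Sharp U Y

theorem pow_mul_mem {K U : Subgroup (Perm V)} (hn : ∀ κ ∈ K, ∀ u ∈ U, κ * u * κ⁻¹ ∈ U)
    {y z : Perm V} (hy : y ∈ U) (hz : z ∈ K) (a : ℤ) : ∃ u ∈ U, (y * z) ^ a = u * z ^ a := by
  have h1 : ∀ n : ℕ, ∃ u ∈ U, (y * z) ^ n = u * z ^ n := by
    intro n
    induction n with
    | zero => exact ⟨1, U.one_mem, by simp⟩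
    | succ n ih =>
      obtain ⟨u, hu, e⟩ := ih
      refine ⟨u * (z ^ n * y * (z ^ n)⁻¹), U.mul_mem hu (hn _ (K.pow_mem hz n) y hy), ?_⟩
      rw [pow_succ, e, pow_succ]
      group
  obtain ⟨n, rfl | rfl⟩ := a.eq_nat_or_neg
  · obtain ⟨u, hu, e⟩ := h1 n
    exact ⟨u, hu, by rw [zpow_natCast, zpow_natCast, e]⟩
  · obtain ⟨u, hu, e⟩ := h1 n
    have h2 := hn _ (K.inv_mem (K.pow_mem hz n)) _ (U.inv_mem hu)
    refine ⟨_, h2, ?_⟩
    rw [zpow_neg, zpow_neg, zpow_natCast, zpow_natCast, e]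
    group

theorem Setup.step [Finite V] [Nonempty V] (S : Setup E G H F₁ F₂) {U : Subgroup (Perm V)}
    {T : Set (Perm V)} (L : Lev G F₁ F₂ U T) {x : Perm V} (hx : x ∈ K0 F₁ F₂) (hg : Good G U x)
    (hc : ∀ κ ∈ K0 F₁ F₂, κ * x * κ⁻¹ * x⁻¹ ∈ U) :
    Lev G F₁ F₂ (U ⊔ Subgroup.zpowers x) T ∧ ((∃ v, ∀ u ∈ U, x v ≠ u v) →
      Lev G F₁ F₂ (U ⊔ Subgroup.zpowers x) (insert x T)) := by
  have hKH := S.K0_KH
  have hxn : ∀ b : ℤ, ∀ u ∈ U, x ^ b * u * (x ^ b)⁻¹ ∈ U :=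
    fun b u hu => L.nor _ (Subgroup.zpow_mem _ hx b) u hu
  -- the elements of the new group
  have hW : ∀ w ∈ U ⊔ Subgroup.zpowers x, ∃ u ∈ U, ∃ b : ℤ, w = u * x ^ b := by
    let W : Subgroup (Perm V) :=
      { carrier := {w | ∃ u ∈ U, ∃ b : ℤ, w = u * x ^ b}
        one_mem' := ⟨1, U.one_mem, 0, by simp⟩
        mul_mem' := by
          rintro _ _ ⟨u, hu, b, rfl⟩ ⟨u', hu', c, rfl⟩
          refine ⟨u * (x ^ b * u' * (x ^ b)⁻¹), U.mul_mem hu (hxn b u' hu'), b + c, ?_⟩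
          rw [zpow_add]
          group
        inv_mem' := by
          rintro _ ⟨u, hu, b, rfl⟩
          refine ⟨x ^ (-b) * u⁻¹ * (x ^ (-b))⁻¹, hxn (-b) _ (U.inv_mem hu), -b, ?_⟩
          group }
    have h1 : U ⊔ Subgroup.zpowers x ≤ W := by
      refine sup_le (fun u hu => ⟨u, hu, 0, by simp⟩) ?_
      rw [Subgroup.zpowers_le]
      exact ⟨1, U.one_mem, 1, by simp⟩
    exact fun w hw => h1 hw
  have hUW : U ≤ U ⊔ Subgroup.zpowers x := le_sup_left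
  have hxW : x ∈ U ⊔ Subgroup.zpowers x :=
    (le_sup_right : Subgroup.zpowers x ≤ _) (Subgroup.mem_zpowers x)
  have hWK : U ⊔ Subgroup.zpowers x ≤ K0 F₁ F₂ := sup_le L.le (Subgroup.zpowers_le.2 hx)
  -- independence of the vertex
  have hA : ∀ v w, ∀ a : ℤ, (∃ u ∈ U, (x ^ a) v = u v) → ∃ u ∈ U, (x ^ a) w = u w := by
    rintro v w a ⟨u, hu, e⟩
    obtain ⟨g, hgG, rfl⟩ := S.tr w v
    obtain ⟨u', hu', e1⟩ := L.comp g hgG u hu w
    obtain ⟨s, hs, y, hy, e2⟩ := hg g hgG w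
    have e3 : ((g⁻¹ * x * g) ^ a) w = ((y * x ^ s) ^ a) w :=
      ag_zpow (S.conj_KH hgG (hKH hx)) ((KH H).mul_mem (hKH (L.le hy))
        ((KH H).zpow_mem (hKH hx) s)) e2 a
    obtain ⟨u2, hu2, e4⟩ := pow_mul_mem L.nor hy (Subgroup.zpow_mem _ hx s) a
    have e5 : (g⁻¹ * x * g) ^ a = g⁻¹ * x ^ a * g := by
      have := conj_zpow (a := g⁻¹) (b := x) (i := a)
      rwa [inv_inv] at this
    have e6 : (g⁻¹ * x ^ a * g) w = u' w := by
      rw [← e1, Perm.mul_apply, Perm.mul_apply, e]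
      rfl
    rw [e5, e6, e4] at e3
    have e7 : ((x ^ s) ^ a) w = (u2⁻¹ * u') w := by
      rw [Perm.mul_apply, e3, Perm.mul_apply, ps2]
    rcases hs with rfl | rfl
    · rw [zpow_one] at e7
      exact ⟨_, U.mul_mem (U.inv_mem hu2) hu', e7⟩
    · have hm : u2⁻¹ * u' ∈ U := U.mul_mem (U.inv_mem hu2) hu'
      refine ⟨(u2⁻¹ * u')⁻¹, U.inv_mem hm, ?_⟩
      have e8 := ag_inv ((KH H).zpow_mem ((KH H).zpow_mem (hKH hx) (-1)) a)
        (hKH (L.le hm)) e7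
      rw [← e8]
      congr 1
      rw [← zpow_mul, ← zpow_neg]
      congr 1
      ring
  obtain ⟨Y, hYK, hYT, hY⟩ := L.ex
  obtain ⟨Y', h1, h2, h3, h4⟩ := step0 (x := x)
    (fun u hu => by simpa using hxn 1 u hu) (fun u hu => by simpa using hxn (-1) u hu) hA hY
  have hY'K : ∀ y ∈ Y', y ∈ K0 F₁ F₂ := by
    intro y hy
    obtain ⟨a, z, hz, rfl⟩ := h2 y hy
    exact Subgroup.mul_mem _ (Subgroup.pow_mem _ hx a) (hYK z hz)
  have hSharp : Sharp (U ⊔ Subgroup.zpowers x) Y' :=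
    { one := h1 1 hY.one
      loc := by
        intro y hy v
        obtain ⟨a, z, hz, rfl⟩ := h2 y hy
        obtain ⟨u, hu, e⟩ := hY.loc z hz v
        refine ⟨x ^ a * u, Subgroup.mul_mem _ (Subgroup.pow_mem _ hxW a) (hUW hu), ?_⟩
        rw [Perm.mul_apply, e]
        rfl
      ex := by
        rintro v w ⟨z, hz, e⟩
        obtain ⟨u, hu, b, rfl⟩ := hW z hz
        exact h4 v w ⟨u, hu, b, e⟩ }
  have hnor : ∀ κ ∈ K0 F₁ F₂, ∀ u ∈ U ⊔ Subgroup.zpowers x,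
      κ * u * κ⁻¹ ∈ U ⊔ Subgroup.zpowers x := by
    intro κ hκ w hw
    obtain ⟨u, hu, b, rfl⟩ := hW w hw
    have e : κ * (u * x ^ b) * κ⁻¹ = (κ * u * κ⁻¹) * ((κ * x * κ⁻¹ * x⁻¹) * x) ^ b := by
      have e1 : (κ * x * κ⁻¹ * x⁻¹) * x = κ * x * κ⁻¹ := by group
      rw [e1, conj_zpow]
      group
    rw [e]
    exact Subgroup.mul_mem _ (hUW (L.nor κ hκ u hu)) (Subgroup.zpow_mem _
      (Subgroup.mul_mem _ (hUW (hc κ hκ)) hxW) b)
  have hcomp : Comp G (U ⊔ Subgroup.zpowers x) := by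
    intro g hgG w hw v
    obtain ⟨u, hu, b, rfl⟩ := hW w hw
    obtain ⟨u', hu', e1⟩ := L.comp g hgG u hu v
    obtain ⟨s, hs, y, hy, e2⟩ := hg g hgG v
    have m1 : y * x ^ s ∈ KH H := (KH H).mul_mem (hKH (L.le hy)) ((KH H).zpow_mem (hKH hx) s)
    have m2 := S.conj_KH hgG (hKH hx)
    have e3 : ((g⁻¹ * x * g) ^ b) v = ((y * x ^ s) ^ b) v := ag_zpow m2 m1 e2 b
    refine ⟨u' * (y * x ^ s) ^ b, Subgroup.mul_mem _ (hUW hu') (Subgroup.zpow_mem _
      (Subgroup.mul_mem _ (hUW hy) (Subgroup.zpow_mem _ hxW s)) b), ?_⟩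
    have e4 : g⁻¹ * (u * x ^ b) * g = (g⁻¹ * u * g) * (g⁻¹ * x * g) ^ b := by
      have := conj_zpow (a := g⁻¹) (b := x) (i := b)
      rw [inv_inv] at this
      rw [this]
      group
    rw [e4]
    exact ag_mul (S.conj_KH hgG (hKH (L.le hu))) (hKH (L.le hu')) ((KH H).zpow_mem m2 b) e1 e3
  refine ⟨⟨hWK, hnor, hcomp, Y', hY'K, fun t ht => h1 t (hYT t ht), hSharp⟩, fun hv =>
    ⟨hWK, hnor, hcomp, Y', hY'K, ?_, hSharp⟩⟩
  rintro t (rfl | ht)
  · simpa using h3 hv 1 hY.one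
  · exact h1 t (hYT t ht)

theorem Setup.chain [Finite V] [Nonempty V] (S : Setup E G H F₁ F₂) {n : ℕ}
    {B : Subgroup (Perm V)} {T : Set (Perm V)} (hB : Ga F₁ F₂ (n + 1) ≤ B)
    (hB' : B ≤ Ga F₁ F₂ n) (L : Lev G F₁ F₂ B T) : Lev G F₁ F₂ (Ga F₁ F₂ n) T := by
  have key : ∀ s : Set (Perm V), s.Finite →
      s ⊆ {x | x ∈ Ga F₁ F₂ n ∧ Good G (Ga F₁ F₂ (n + 1)) x} →
      Lev G F₁ F₂ (B ⊔ Subgroup.closure s) T := by
    intro s hs
    induction s, hs using Set.Finite.induction_on with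
    | empty =>
      intro _
      rw [Subgroup.closure_empty, sup_bot_eq]
      exact L
    | @insert a s _ _ ih =>
      intro hsub
      have h1 := ih fun x hx => hsub (Set.mem_insert_of_mem a hx)
      obtain ⟨ha1, ha2⟩ := hsub (Set.mem_insert a s)
      have e : B ⊔ Subgroup.closure (insert a s) =
          (B ⊔ Subgroup.closure s) ⊔ Subgroup.zpowers a := by
        rw [Set.insert_eq, Subgroup.closure_union, Subgroup.zpowers_eq_closure, sup_assoc,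
          sup_comm (Subgroup.closure {a})]
      rw [e]
      refine (S.step h1 (Ga_le n ha1) (ha2.mono (hB.trans le_sup_left)) ?_).1
      intro κ hκ
      refine (hB.trans le_sup_left : _ ≤ B ⊔ Subgroup.closure s) ?_
      have e1 : κ * a * κ⁻¹ * a⁻¹ = ⁅a, κ⁆⁻¹ := by
        rw [commutatorElement_def]
        group
      rw [e1]
      exact Subgroup.inv_mem _ (Ga_comm ha1 hκ)
  have h1 := key _ (Set.toFinite _) subset_rfl
  have h2 : B ⊔ Subgroup.closure {x | x ∈ Ga F₁ F₂ n ∧ Good G (Ga F₁ F₂ (n + 1)) x} =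
      Ga F₁ F₂ n := by
    apply le_antisymm
    · refine sup_le hB' ?_
      rw [Subgroup.closure_le]
      exact fun x hx => hx.1
    · exact (S.gen n).trans (sup_le_sup_right hB _)
  rwa [h2] at h1

theorem Setup.exk [Finite V] [Nonempty V] (S : Setup E G H F₁ F₂)
    (hN : ∃ N, Ga F₁ F₂ N = ⊥) : ∃ v, ∀ u ∈ Ga F₁ F₂ 1, kk F₁ F₂ 0 v ≠ u v := by
  by_contra hcon
  push Not at hcon
  have hKH := S.K0_KH
  have hconj : ∀ j : ℕ, ∀ u ∈ Ga F₁ F₂ 1, (F₁ ^ j)⁻¹ * u * F₁ ^ j ∈ Ga F₁ F₂ 1 := by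
    have h1 : ∀ u ∈ Ga F₁ F₂ 1, F₁⁻¹ * u * F₁ ∈ Ga F₁ F₂ 1 := by
      intro u hu
      have hu' : u ∈ Subgroup.closure {g | ∃ g₁ ∈ K0 F₁ F₂, ∃ g₂ ∈ K0 F₁ F₂, ⁅g₁, g₂⁆ = g} := hu
      clear hu
      induction hu' using Subgroup.closure_induction with
      | mem u hu =>
        obtain ⟨a, ha, b, hb, rfl⟩ := hu
        have e : F₁⁻¹ * ⁅a, b⁆ * F₁ = ⁅F₁⁻¹ * a * F₁, F₁⁻¹ * b * F₁⁆ := by
          simp only [commutatorElement_def]
          group
        rw [e]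
        exact Ga_comm (n := 0) (K0_conj' a ha) (K0_conj' b hb)
      | one => simp
      | mul a b ha hb h1 h2 =>
        have e : F₁⁻¹ * (a * b) * F₁ = (F₁⁻¹ * a * F₁) * (F₁⁻¹ * b * F₁) := by group
        rw [e]
        exact Subgroup.mul_mem _ h1 h2
      | inv a ha h1 =>
        have e : F₁⁻¹ * a⁻¹ * F₁ = (F₁⁻¹ * a * F₁)⁻¹ := by group
        rw [e]
        exact Subgroup.inv_mem _ h1
    intro j
    induction j with
    | zero => intro u hu; simpa using hu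
    | succ j ih =>
      intro u hu
      have e : (F₁ ^ (j + 1))⁻¹ * u * F₁ ^ (j + 1) = F₁⁻¹ * ((F₁ ^ j)⁻¹ * u * F₁ ^ j) * F₁ := by
        rw [pow_succ]
        group
      rw [e]
      exact h1 _ (ih u hu)
  -- all elements of `K0` act on a vertex like elements of `Ga 1`
  have hP1 : ∀ x ∈ K0 F₁ F₂, ∀ v, ∃ u ∈ Ga F₁ F₂ 1, x v = u v := by
    intro x hx
    unfold K0 at hx
    induction hx using Subgroup.closure_induction with
    | mem x hx =>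
      obtain ⟨j, rfl⟩ := hx
      intro v
      obtain ⟨u, hu, e⟩ := hcon ((F₁ ^ j) v)
      refine ⟨_, hconj j u hu, ?_⟩
      rw [kk_zero] at e
      unfold kk
      rw [Perm.mul_apply, Perm.mul_apply, e]
      rfl
    | one => intro v; exact ⟨1, Subgroup.one_mem _, rfl⟩
    | mul a b ha hb h1 h2 =>
      intro v
      obtain ⟨u, hu, e⟩ := h1 v
      obtain ⟨u', hu', e'⟩ := h2 v
      exact ⟨u * u', Subgroup.mul_mem _ hu hu', ag_mul (hKH ha) (hKH (Ga_le 1 hu)) (hKH hb) e e'⟩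
    | inv a ha h1 =>
      intro v
      obtain ⟨u, hu, e⟩ := h1 v
      exact ⟨u⁻¹, Subgroup.inv_mem _ hu, ag_inv (hKH ha) (hKH (Ga_le 1 hu)) e⟩
  have hPn : ∀ n, ∀ x ∈ K0 F₁ F₂, ∀ v, ∃ u ∈ Ga F₁ F₂ n, x v = u v := by
    intro n
    induction n with
    | zero => intro x hx v; exact ⟨x, hx, rfl⟩
    | succ n ih =>
      intro x hx v
      obtain ⟨y, hy, e⟩ := hP1 x hx v
      rw [e]
      clear e hx x
      have hy' : y ∈ Subgroup.closure {g | ∃ g₁ ∈ K0 F₁ F₂, ∃ g₂ ∈ K0 F₁ F₂, ⁅g₁, g₂⁆ = g} := hy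
      clear hy
      have hle : Subgroup.closure {g | ∃ g₁ ∈ K0 F₁ F₂, ∃ g₂ ∈ K0 F₁ F₂, ⁅g₁, g₂⁆ = g} ≤
          K0 F₁ F₂ := Ga_le 1
      induction hy' using Subgroup.closure_induction with
      | mem y hy =>
        obtain ⟨a, ha, b, hb, rfl⟩ := hy
        obtain ⟨a', ha', e⟩ := ih a ha v
        exact ⟨⁅a', b⁆, Ga_comm ha' hb, ag_comm (hKH ha) (hKH (Ga_le n ha')) (hKH hb) (hKH hb)
          e rfl⟩
      | one => exact ⟨1, Subgroup.one_mem _, rfl⟩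
      | mul a b ha hb h1 h2 =>
        obtain ⟨u, hu, e⟩ := h1
        obtain ⟨u', hu', e'⟩ := h2
        exact ⟨u * u', Subgroup.mul_mem _ hu hu', ag_mul (hKH (hle ha)) (hKH (Ga_le _ hu))
          (hKH (hle hb)) e e'⟩
      | inv a ha h1 =>
        obtain ⟨u, hu, e⟩ := h1
        exact ⟨u⁻¹, Subgroup.inv_mem _ hu, ag_inv (hKH (hle ha)) (hKH (Ga_le _ hu)) e⟩
  obtain ⟨N, hN⟩ := hN
  obtain ⟨v⟩ := ‹Nonempty V›
  obtain ⟨u, hu, e⟩ := hPn N _ (kk_mem 0) v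
  rw [hN, Subgroup.mem_bot] at hu
  rw [hu, kk_zero, Perm.mul_apply, Perm.one_apply, Perm.inv_eq_iff_eq] at e
  exact S.fac.1 v e.symm

theorem lcs_mono {P : Type*} [Group P] {A B : Subgroup P} (h : A ≤ B) (n : ℕ) :
    A.lowerCentralSeries n ≤ B.lowerCentralSeries n := by
  induction n with
  | zero => exact h
  | succ n ih =>
    rw [Subgroup.lowerCentralSeries_succ, Subgroup.lowerCentralSeries_succ]
    exact Subgroup.commutator_mono ih h

theorem Setup.nilK [Finite V] (S : Setup E G H F₁ F₂) (hs : ∀ h ∈ H, ∀ v, h v = v → h = 1)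
    (hnil : Group.IsNilpotent H) : ∃ N, Ga F₁ F₂ N = ⊥ := by
  have h1 := KH_nil (H := H) hs
  rw [Subgroup.isNilpotent_iff_lowerCentralSeries] at h1
  obtain ⟨N, hN⟩ := h1
  refine ⟨N, ?_⟩
  rw [eq_bot_iff, ← hN]
  exact lcs_mono S.K0_KH N

theorem Setup.exY [Finite V] [Nonempty V] (S : Setup E G H F₁ F₂)
    (hN : ∃ N, Ga F₁ F₂ N = ⊥) : ∃ Y : Set (Perm V), (∀ y ∈ Y, y ∈ K0 F₁ F₂) ∧
      kk F₁ F₂ 0 ∈ Y ∧ Sharp (K0 F₁ F₂) Y := by
  have hk := S.exk hN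
  obtain ⟨N, hN⟩ := hN
  have hN' : Ga F₁ F₂ (N + 1) = ⊥ := by
    rw [eq_bot_iff, ← hN]
    exact Ga_anti (by omega)
  have h0 : Lev G F₁ F₂ (Ga F₁ F₂ (N + 1)) ∅ := by
    rw [hN']
    refine ⟨bot_le, ?_, ?_, {1}, ?_, ?_, sharp_bot⟩
    · intro κ _ u hu
      rw [Subgroup.mem_bot] at hu ⊢
      rw [hu]
      group
    · intro g _ u hu v
      rw [Subgroup.mem_bot] at hu
      refine ⟨1, Subgroup.one_mem _, ?_⟩
      rw [hu, mul_one, inv_mul_cancel]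
    · rintro y rfl
      exact Subgroup.one_mem _
    · intro t ht
      exact absurd ht (Set.notMem_empty t)
  have h1 : ∀ j : ℕ, j ≤ N → Lev G F₁ F₂ (Ga F₁ F₂ (N + 1 - j)) ∅ := by
    intro j
    induction j with
    | zero => intro _; exact h0
    | succ j ih =>
      intro hj
      have h2 := ih (by omega)
      have e : N + 1 - j = (N + 1 - (j + 1)) + 1 := by omega
      rw [e] at h2
      exact S.chain le_rfl (Ga_anti (by omega)) h2
  have h2 := h1 N le_rfl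
  have e : N + 1 - N = 0 + 1 := by omega
  rw [e] at h2
  have h3 := (S.step h2 (kk_mem 0) (S.good_kk0 0) (fun κ hκ => by
    have e1 : κ * kk F₁ F₂ 0 * κ⁻¹ * (kk F₁ F₂ 0)⁻¹ = ⁅κ, kk F₁ F₂ 0⁆ := by
      rw [commutatorElement_def]
    rw [e1]
    exact Ga_comm (n := 0) hκ (kk_mem 0))).2 hk
  have h4 := S.chain (n := 0) le_sup_left
    (sup_le (Ga_anti (by omega)) (Subgroup.zpowers_le.2 (kk_mem 0))) h3
  obtain ⟨Y, hY1, hY2, hY3⟩ := h4.ex
  exact ⟨Y, hY1, hY2 _ (by simp), hY3⟩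

/-- The main result in terms of a factorization. -/
theorem Setup.main [Finite V] [Nonempty V] (S : Setup E G H F₁ F₂)
    (hconn : ∀ v w, Relation.ReflTransGen E v w) (hs : ∀ h ∈ H, ∀ v, h v = v → h = 1)
    (hnil : Group.IsNilpotent H) : HasSTE E := by
  obtain ⟨C, hC⟩ : ∃ C : Subgroup (Perm V), C = Subgroup.closure {F₁, F₂} := ⟨_, rfl⟩
  have hF1 : F₁ ∈ C := hC ▸ Subgroup.subset_closure (by simp)
  have hF2 : F₂ ∈ C := hC ▸ Subgroup.subset_closure (by simp)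
  have hKC : K0 F₁ F₂ ≤ C := by
    unfold K0
    rw [Subgroup.closure_le]
    rintro _ ⟨j, rfl⟩
    unfold kk
    exact C.mul_mem (C.mul_mem (C.inv_mem (C.pow_mem hF1 j)) (C.mul_mem (C.inv_mem hF1) hF2))
      (C.pow_mem hF1 j)
  refine ⟨F₁, F₂, S.fac, ?_⟩
  rw [← hC]
  have hsucc : ∀ v w, E v w → w = F₁ v ∨ w = F₁ (kk F₁ F₂ 0 v) := by
    intro v w h
    rcases (S.fac.2 v w).1 h with h | h
    · exact Or.inl h
    · refine Or.inr ?_
      rw [h, kk_zero, Perm.mul_apply, ps1]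
  by_cases hcase : ∃ v, ∃ κ ∈ K0 F₁ F₂, F₁ v = κ v
  · -- `H` is transitive
    obtain ⟨v₀, κ, hκ, e0⟩ := hcase
    have hCH : ∀ c ∈ C, (∀ h ∈ H, ∀ v, c (h v) = h (c v)) ∧ ∃ h ∈ H, c v₀ = h v₀ := by
      intro c hc
      rw [hC] at hc
      induction hc using Subgroup.closure_induction with
      | mem c hc =>
        obtain ⟨h, hh, e⟩ := KH_orb (S.K0_KH hκ) v₀
        rcases hc with rfl | rfl
        · exact ⟨S.c1, h, hh, e0.trans e⟩
        · obtain ⟨h', hh', e'⟩ := S.same v₀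
          refine ⟨S.c2, h' * h, H.mul_mem hh' hh, ?_⟩
          rw [e', e0, e]
          rfl
      | one => exact ⟨fun _ _ _ => rfl, 1, H.one_mem, rfl⟩
      | mul a b _ _ ha hb =>
        obtain ⟨h, hh, e⟩ := ha.2
        obtain ⟨h', hh', e'⟩ := hb.2
        refine ⟨fun k hk v => ?_, h' * h, H.mul_mem hh' hh, ?_⟩
        · rw [Perm.mul_apply, hb.1 k hk, ha.1 k hk]
          rfl
        · rw [Perm.mul_apply, e', ha.1 h' hh', e]
          rfl
      | inv a _ ha =>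
        obtain ⟨h, hh, e⟩ := ha.2
        refine ⟨fun k hk v => ?_, h⁻¹, H.inv_mem hh, ?_⟩
        · rw [Perm.inv_eq_iff_eq, ha.1 k hk, ps1]
        · rw [Perm.inv_eq_iff_eq, ha.1 _ (H.inv_mem hh), e, ps2]
    have htrans : ∀ v w, ∃ c ∈ C, c v = w := by
      intro v w
      induction hconn v w with
      | refl => exact ⟨1, C.one_mem, rfl⟩
      | tail _ hbc ih =>
        obtain ⟨c, hc, rfl⟩ := ih
        rcases (S.fac.2 _ _).1 hbc with rfl | rfl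
        · exact ⟨F₁ * c, C.mul_mem hF1 hc, rfl⟩
        · exact ⟨F₂ * c, C.mul_mem hF2 hc, rfl⟩
    have hHt : ∀ v, ∃ h ∈ H, h v₀ = v := by
      intro v
      obtain ⟨c, hc, rfl⟩ := htrans v₀ v
      obtain ⟨h, hh, e⟩ := (hCH c hc).2
      exact ⟨h, hh, e.symm⟩
    have hsemi : ∀ c ∈ C, ∀ v, c v = v → c = 1 := by
      intro c hc v hv
      ext w
      obtain ⟨h, hh, rfl⟩ := hHt v
      obtain ⟨h', hh', rfl⟩ := hHt w
      have hcH := (hCH c hc).1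
      rw [hcH h hh] at hv
      have hv' := h.injective hv
      rw [hcH h' hh', hv']
      rfl
    refine ⟨C, fun x hx => hx, C.one_mem, hF1, hF2, fun v w => ?_⟩
    obtain ⟨c, hc, rfl⟩ := htrans v w
    refine ⟨c, ⟨hc, rfl⟩, ?_⟩
    rintro c' ⟨hc', e⟩
    have h1 : (c⁻¹ * c') v = v := by
      rw [Perm.mul_apply, e, ps2]
    exact (inv_mul_eq_one.1 (hsemi _ (C.mul_mem (C.inv_mem hc) hc') v h1)).symm
  · push Not at hcase
    obtain ⟨Y, hYK, hkY, hY⟩ := S.exY (S.nilK hs hnil)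
    have hn := zpow_norm (U := K0 F₁ F₂) (x := F₁) K0_conj K0_conj'
    obtain ⟨Y', h1, h2, h3, h4⟩ := step0 (x := F₁) K0_conj K0_conj' (fun v w a => by
      rintro ⟨u, hu, e⟩
      induction hconn v w with
      | refl => exact ⟨u, hu, e⟩
      | tail _ hbc ih =>
        rename_i b c _
        obtain ⟨u, hu, e⟩ := ih
        -- invariance under `K0`
        have hinv : ∀ κ ∈ K0 F₁ F₂, ∃ u ∈ K0 F₁ F₂, (F₁ ^ a) (κ b) = u (κ b) := by
          intro κ hκ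
          refine ⟨(F₁ ^ a * κ * (F₁ ^ a)⁻¹) * u * κ⁻¹, Subgroup.mul_mem _ (Subgroup.mul_mem _
            (hn a κ hκ) hu) (Subgroup.inv_mem _ hκ), ?_⟩
          rw [Perm.mul_apply, ps2, Perm.mul_apply, ← e, Perm.mul_apply, ps2, Perm.mul_apply]
        have hF : ∀ b', (∃ u ∈ K0 F₁ F₂, (F₁ ^ a) b' = u b') →
            ∃ u ∈ K0 F₁ F₂, (F₁ ^ a) (F₁ b') = u (F₁ b') := by
          rintro b' ⟨u, hu, e⟩
          refine ⟨F₁ * u * F₁⁻¹, K0_conj u hu, ?_⟩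
          rw [Perm.mul_apply, ps2, Perm.mul_apply, ← e, ← Perm.mul_apply, ← Perm.mul_apply,
            ← zpow_add_one, ← zpow_one_add, add_comm]
        rcases hsucc _ _ hbc with rfl | rfl
        · exact hF _ ⟨u, hu, e⟩
        · exact hF _ (hinv _ (kk_mem 0))) hY
    obtain ⟨v₀⟩ := ‹Nonempty V›
    have h5 := h3 ⟨v₀, fun u hu => hcase v₀ u hu⟩
    refine ⟨Y', ?_, h1 1 hY.one, by simpa using h5 1 hY.one, ?_, fun v w => h4 v w ?_⟩
    · intro y hy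
      obtain ⟨a, z, hz, rfl⟩ := h2 y hy
      exact C.mul_mem (C.pow_mem hF1 a) (hKC (hYK z hz))
    · have h6 := h5 _ hkY
      rw [kk_zero, mul_inv_cancel_left] at h6
      exact h6
    · induction hconn v w with
      | refl => exact ⟨1, Subgroup.one_mem _, 0, by simp⟩
      | tail _ hbc ih =>
        obtain ⟨u, hu, b, rfl⟩ := ih
        rcases hsucc _ _ hbc with rfl | rfl
        · refine ⟨F₁ * u * F₁⁻¹, K0_conj u hu, b + 1, ?_⟩
          rw [← Perm.mul_apply]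
          congr 1
          rw [add_comm, zpow_add, zpow_one]
          group
        · refine ⟨F₁ * (kk F₁ F₂ 0 * u) * F₁⁻¹, K0_conj _ (Subgroup.mul_mem _ (kk_mem 0) hu),
            b + 1, ?_⟩
          rw [← Perm.mul_apply, ← Perm.mul_apply]
          congr 1
          rw [add_comm, zpow_add, zpow_one]
          group

end Pool.Agent.STE
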