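import Pool.Agent.STE.Crit
import Pool.Agent.STE.Core

/-!
# Digraphs with a semiregular group of automorphisms with at most two orbits
-/

set_option autoImplicit false

namespace Pool.Agent.STE

open Equiv

variable {V : Type} {E : V → V → Prop}

/-- The two-orbit case. -/
theorem two_orbits [Finite V] [Nonempty V] (hE : Dig E) {R : Subgroup (Perm V)}
    (hR : R ≤ autGroup E) (hs : ∀ h ∈ R, ∀ v, h v = v → h = 1)
    (hc : Nat.card V ≤ 2 * Nat.card R) : HasSTE E := by
  classical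
  by_cases hT : ∀ v w, ∃ g ∈ R, g v = w
  · exact regular hE hR hT hs
  have huniq : ∀ (h h' : Perm V), h ∈ R → h' ∈ R → ∀ v, h v = h' v → h = h' := by
    intro h h' hh hh' v e
    have e1 : (h'⁻¹ * h) v = v := by
      rw [Perm.mul_apply, e, ps2]
    exact (inv_mul_eq_one.1 (hs _ (R.mul_mem (R.inv_mem hh') hh) v e1)).symm
  push Not at hT
  obtain ⟨v₁, v₂, h12⟩ := hT
  -- every vertex is in one of the two orbits
  have hinj : Function.Injective
      (fun z : R ⊕ R => Sum.elim (fun r : R => (r : Perm V) v₁) (fun r : R => (r : Perm V) v₂) z) := by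
    rintro (r | r) (r' | r') h
    · exact congrArg Sum.inl (Subtype.ext (huniq _ _ r.2 r'.2 v₁ h))
    · exfalso
      refine h12 _ (R.mul_mem (R.inv_mem r'.2) r.2) ?_
      have h' : (r : Perm V) v₁ = (r' : Perm V) v₂ := h
      rw [Perm.mul_apply, h', ps2]
    · exfalso
      refine h12 _ (R.mul_mem (R.inv_mem r.2) r'.2) ?_
      have h' : (r : Perm V) v₂ = (r' : Perm V) v₁ := h
      rw [Perm.mul_apply, ← h', ps2]
    · exact congrArg Sum.inr (Subtype.ext (huniq _ _ r.2 r'.2 v₂ h))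
  have hbij : Function.Bijective
      (fun z : R ⊕ R => Sum.elim (fun r : R => (r : Perm V) v₁) (fun r : R => (r : Perm V) v₂) z) := by
    refine (Nat.bijective_iff_injective_and_card _).2 ⟨hinj, le_antisymm
      (Nat.card_le_card_of_injective _ hinj) ?_⟩
    rw [Nat.card_sum]
    omega
  have hcov : ∀ v, (∃ r ∈ R, r v₁ = v) ∨ ∃ r ∈ R, r v₂ = v := by
    intro v
    obtain ⟨r | r, h⟩ := hbij.2 v
    · exact Or.inl ⟨r, r.2, h⟩
    · exact Or.inr ⟨r, r.2, h⟩
  obtain ⟨T, hTdef⟩ : ∃ T : V → Prop, T = fun v => ∃ r ∈ R, r v₁ = v := ⟨_, rfl⟩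
  have hT1 : T v₁ := by
    rw [hTdef]
    exact ⟨1, R.one_mem, rfl⟩
  have hT2 : ¬ T v₂ := by
    rw [hTdef]
    rintro ⟨r, hr, e⟩
    exact h12 r hr e
  have hTr : ∀ r ∈ R, ∀ v, T (r v) ↔ T v := by
    intro r hr v
    rw [hTdef]
    constructor
    · rintro ⟨r', hr', e⟩
      refine ⟨r⁻¹ * r', R.mul_mem (R.inv_mem hr) hr', ?_⟩
      rw [Perm.mul_apply, e, ps2]
    · rintro ⟨r', hr', e⟩
      refine ⟨r * r', R.mul_mem hr hr', ?_⟩
      rw [Perm.mul_apply, e]
  have hTo : ∀ u w, (T u ↔ T w) → ∃ r ∈ R, r u = w := by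
    have h1 : ∀ v, ¬ T v → ∃ r ∈ R, r v₂ = v := by
      intro v hv
      rcases hcov v with h | h
      · exact absurd (by rw [hTdef]; exact h) hv
      · exact h
    intro u w h
    by_cases hu : T u
    · have hw := h.1 hu
      rw [hTdef] at hu hw
      obtain ⟨r, hr, rfl⟩ := hu
      obtain ⟨r', hr', rfl⟩ := hw
      exact ⟨r' * r⁻¹, R.mul_mem hr' (R.inv_mem hr), by rw [Perm.mul_apply, ps2]⟩
    · have hw : ¬ T w := fun h' => hu (h.2 h')
      obtain ⟨r, hr, rfl⟩ := h1 u hu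
      obtain ⟨r', hr', rfl⟩ := h1 w hw
      exact ⟨r' * r⁻¹, R.mul_mem hr' (R.inv_mem hr), by rw [Perm.mul_apply, ps2]⟩
  -- out-neighbours
  have hout : ∀ v, ∃ a b, a ≠ b ∧ ∀ w, E v w ↔ w = a ∨ w = b := by
    intro v
    obtain ⟨a, b, hab, e⟩ := Set.ncard_eq_two.1 (hE.out v)
    refine ⟨a, b, hab, fun w => ?_⟩
    have h1 : w ∈ {w | E v w} ↔ w ∈ ({a, b} : Set V) := by rw [e]
    simpa using h1
  obtain ⟨c₁, d₁, hcd₁, h1⟩ := hout v₁
  obtain ⟨c₂, d₂, hcd₂, h2⟩ := hout v₂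
  -- the element of `R` that maps the base point to a vertex
  have hbase : ∀ u, ∃ r ∈ R, r (if T u then v₁ else v₂) = u := by
    intro u
    by_cases hu : T u
    · rw [if_pos hu]
      exact hTo v₁ u (by tauto)
    · rw [if_neg hu]
      exact hTo v₂ u (by tauto)
  choose ρ hρ1 hρ2 using hbase
  have hρr : ∀ r ∈ R, ∀ u, ρ (r u) = r * ρ u := by
    intro r hr u
    have e1 := hρ2 (r u)
    have e2 := hρ2 u
    by_cases hu : T u
    · rw [if_pos ((hTr r hr u).2 hu)] at e1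
      rw [if_pos hu] at e2
      refine huniq _ _ (hρ1 _) (R.mul_mem hr (hρ1 u)) v₁ ?_
      rw [e1, Perm.mul_apply, e2]
    · rw [if_neg (fun h => hu ((hTr r hr u).1 h))] at e1
      rw [if_neg hu] at e2
      refine huniq _ _ (hρ1 _) (R.mul_mem hr (hρ1 u)) v₂ ?_
      rw [e1, Perm.mul_apply, e2]
  -- counting the out-neighbours in the first orbit
  obtain ⟨A, hA⟩ : ∃ A : Finset (Bool × V), A = ({(true, c₁), (true, d₁), (false, c₂),
    (false, d₂)} : Finset (Bool × V)).filter (fun x => T x.2) := ⟨_, rfl⟩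
  have hAmem : ∀ x : Bool × V, x ∈ A ↔ E (if x.1 then v₁ else v₂) x.2 ∧ T x.2 := by
    rintro ⟨i, w⟩
    rw [hA, Finset.mem_filter]
    simp only [Finset.mem_insert, Finset.mem_singleton, Prod.mk.injEq]
    cases i
    · simp only [Bool.false_eq_true, false_and, true_and, false_or, if_false, h2]
    · simp only [Bool.true_eq_false, false_and, true_and, or_false, if_true, h1]
  have hA2 : A.card = 2 := by
    have hin := hE.inn v₁
    obtain ⟨f, hf⟩ : ∃ f : V → Bool × V, f = fun u => (decide (T u), (ρ u)⁻¹ v₁) := ⟨_, rfl⟩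
    have himg : (A : Set (Bool × V)) = f '' {u | E u v₁} := by
      ext ⟨i, w⟩
      rw [Finset.mem_coe, hAmem]
      simp only [Set.mem_image, Set.mem_ofPred_eq, hf, Prod.mk.injEq]
      constructor
      · rintro ⟨hEw, hTw⟩
        obtain ⟨r, hr, e⟩ := hTo w v₁ (by tauto)
        refine ⟨r (if i then v₁ else v₂), ?_, ?_, ?_⟩
        · have h3 := (hR hr _ w).2 hEw
          rwa [e] at h3
        · cases i
          · simp only [Bool.false_eq_true, if_false, decide_eq_false_iff_not]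
            rw [hTr r hr]
            exact hT2
          · simp only [if_true, decide_eq_true_eq]
            rw [hTr r hr]
            exact hT1
        · rw [hρr r hr]
          have h4 : ρ (if i then v₁ else v₂) = 1 := by
            have e1 := hρ2 (if i then v₁ else v₂)
            refine hs _ (hρ1 _) (if i then v₁ else v₂) ?_
            cases i
            · simp only [Bool.false_eq_true, if_false] at e1 ⊢
              rwa [if_neg hT2] at e1
            · simp only [if_true] at e1 ⊢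
              rwa [if_pos hT1] at e1
          rw [h4, mul_one, ← e, ps2]
      · rintro ⟨u, hu, rfl, rfl⟩
        have h3 : (if decide (T u) then v₁ else v₂) = if T u then v₁ else v₂ := by
          by_cases h : T u <;> simp [h]
        refine ⟨?_, ?_⟩
        · simp only [decide_eq_true_eq]
          have h4 := (hR (hρ1 u) (if T u then v₁ else v₂) ((ρ u)⁻¹ v₁)).1
          rw [ps1, hρ2] at h4
          exact h4 hu
        · rw [hTr _ (R.inv_mem (hρ1 u))]
          exact hT1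
    have hinjf : Set.InjOn f {u | E u v₁} := by
      intro u _ u' _ h
      rw [hf] at h
      simp only [Prod.mk.injEq, decide_eq_decide] at h
      have e1 : ρ u = ρ u' := by
        have := huniq _ _ (R.inv_mem (hρ1 u)) (R.inv_mem (hρ1 u')) v₁ h.2
        exact inv_injective this
      have e2 := hρ2 u
      have e3 := hρ2 u'
      rw [e1] at e2
      by_cases hu : T u
      · rw [if_pos hu] at e2
        rw [if_pos (h.1.1 hu)] at e3
        exact e2.symm.trans e3
      · rw [if_neg hu] at e2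
        rw [if_neg (fun h' => hu (h.1.2 h'))] at e3
        exact e2.symm.trans e3
    have h3 := Set.InjOn.ncard_image hinjf
    rw [← himg, hin, Set.ncard_coe_finset] at h3
    exact h3
  obtain ⟨a₁, b₁, a₂, b₂, ha1, ha2, ⟨hTa, hTb⟩, hn1, hn2⟩ : ∃ a₁ b₁ a₂ b₂ : V,
      (∀ w, E v₁ w ↔ w = a₁ ∨ w = b₁) ∧ (∀ w, E v₂ w ↔ w = a₂ ∨ w = b₂) ∧
      ((T a₁ ↔ ¬ T a₂) ∧ (T b₁ ↔ ¬ T b₂)) ∧ a₁ ≠ b₁ ∧ a₂ ≠ b₂ := by
    by_cases t1 : T c₁ <;> by_cases t2 : T d₁ <;> by_cases t3 : T c₂ <;> by_cases t4 : T d₂ <;>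
      simp [hA, Finset.filter_insert, Finset.filter_singleton, t1, t2, t3, t4, hcd₁, hcd₂] at hA2
    · exact ⟨c₁, d₁, c₂, d₂, h1, h2, ⟨by tauto, by tauto⟩, hcd₁, hcd₂⟩
    · exact ⟨c₁, d₁, d₂, c₂, h1, fun w => by rw [h2, or_comm], ⟨by tauto, by tauto⟩, hcd₁,
        hcd₂.symm⟩
    · exact ⟨c₁, d₁, c₂, d₂, h1, h2, ⟨by tauto, by tauto⟩, hcd₁, hcd₂⟩
    · exact ⟨c₁, d₁, c₂, d₂, h1, h2, ⟨by tauto, by tauto⟩, hcd₁, hcd₂⟩
    · exact ⟨c₁, d₁, d₂, c₂, h1, fun w => by rw [h2, or_comm], ⟨by tauto, by tauto⟩, hcd₁,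
        hcd₂.symm⟩
    · exact ⟨c₁, d₁, c₂, d₂, h1, h2, ⟨by tauto, by tauto⟩, hcd₁, hcd₂⟩
  -- the factorization
  have hF : ∀ x₁ x₂ : V, (T x₁ ↔ ¬ T x₂) → ∃ F : Perm V,
      (∀ v, F v = ρ v (if T v then x₁ else x₂)) ∧ ∀ r ∈ R, ∀ v, F (r v) = r (F v) := by
    intro x₁ x₂ hx
    obtain ⟨f, hf⟩ : ∃ f : V → V, f = fun v => ρ v (if T v then x₁ else x₂) := ⟨_, rfl⟩
    have hfi : Function.Injective f := by
      intro u v huv
      rw [hf] at huv
      simp only at huv
      have h3 : T (if T u then x₁ else x₂) ↔ T (if T v then x₁ else x₂) := by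
        have a1 := hTr _ (hρ1 u) (if T u then x₁ else x₂)
        have a2 := hTr _ (hρ1 v) (if T v then x₁ else x₂)
        rw [huv] at a1
        exact a1.symm.trans a2
      have h4 : T u ↔ T v := by
        by_cases hu : T u <;> by_cases hv : T v <;> simp only [hu, hv, if_true, if_false] at h3 ⊢ <;>
          tauto
      have h5 : ρ u = ρ v := by
        by_cases hu : T u
        · rw [if_pos hu, if_pos (h4.1 hu)] at huv
          exact huniq _ _ (hρ1 u) (hρ1 v) _ huv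
        · rw [if_neg hu, if_neg (fun h => hu (h4.2 h))] at huv
          exact huniq _ _ (hρ1 u) (hρ1 v) _ huv
      have e2 := hρ2 u
      have e3 := hρ2 v
      rw [h5] at e2
      by_cases hu : T u
      · rw [if_pos hu] at e2
        rw [if_pos (h4.1 hu)] at e3
        exact e2.symm.trans e3
      · rw [if_neg hu] at e2
        rw [if_neg (fun h => hu (h4.2 h))] at e3
        exact e2.symm.trans e3
    refine ⟨Equiv.ofBijective f (Finite.injective_iff_bijective.1 hfi), fun v => ?_, fun r hr v => ?_⟩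
    · change f v = _
      rw [hf]
    · change f (r v) = r (f v)
      rw [hf]
      simp only
      rw [hρr r hr]
      by_cases hv : T v
      · rw [if_pos hv, if_pos ((hTr r hr v).2 hv)]
        rfl
      · rw [if_neg hv, if_neg (fun h => hv ((hTr r hr v).1 h))]
        rfl
  obtain ⟨F₁, hF₁, hF₁R⟩ := hF a₁ a₂ hTa
  obtain ⟨F₂, hF₂, hF₂R⟩ := hF b₁ b₂ hTb
  have hfac : IsFac E F₁ F₂ := by
    refine ⟨fun v => ?_, fun v w => ?_⟩
    · rw [hF₁, hF₂]
      intro h
      have h' := (ρ v).injective h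
      by_cases hv : T v
      · rw [if_pos hv, if_pos hv] at h'
        exact hn1 h'
      · rw [if_neg hv, if_neg hv] at h'
        exact hn2 h'
    · have h3 := hR (hρ1 v) (if T v then v₁ else v₂) ((ρ v)⁻¹ w)
      rw [ps1, hρ2] at h3
      rw [h3, hF₁, hF₂, ← Perm.inv_eq_iff_eq, ← Perm.inv_eq_iff_eq]
      by_cases hv : T v
      · simp only [if_pos hv]
        exact ha1 _
      · simp only [if_neg hv]
        exact ha2 _
  obtain ⟨C, hC⟩ : ∃ C : Subgroup (Perm V), C = Subgroup.closure {F₁, F₂} := ⟨_, rfl⟩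
  have hC1 : F₁ ∈ C := hC ▸ Subgroup.subset_closure (by simp)
  have hC2 : F₂ ∈ C := hC ▸ Subgroup.subset_closure (by simp)
  have hcomm : ∀ c ∈ C, ∀ r ∈ R, ∀ v, c (r v) = r (c v) := by
    intro c hc
    rw [hC] at hc
    exact comm_cl hF₁R hF₂R hc
  have htr : ∀ u w, ∃ c ∈ C, c u = w := by
    intro u w
    rw [hC]
    exact reach hE.conn hfac u w
  have g1 : ∀ c ∈ C, ∀ u w, (T u ↔ T w) → (T (c u) ↔ T (c w)) := by
    intro c hc u w h
    obtain ⟨r, hr, rfl⟩ := hTo u w h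
    rw [hcomm c hc r hr, hTr r hr]
  have g2 : ∀ c ∈ C, ∀ u w, (T u ↔ T w) → c u = u → c w = w := by
    intro c hc u w h e
    obtain ⟨r, hr, rfl⟩ := hTo u w h
    rw [hcomm c hc r hr, e]
  have tT : ∀ (F : Perm V) (x₁ x₂ : V), (∀ v, F v = ρ v (if T v then x₁ else x₂)) →
      (T x₁ ↔ ¬ T x₂) → ((T x₁ → ∀ v, T (F v) ↔ T v) ∧ (¬ T x₁ → ∀ v, T (F v) ↔ ¬ T v)) := by
    intro F x₁ x₂ h h'
    constructor
    · intro h3 v
      rw [h, hTr _ (hρ1 v)]
      by_cases hv : T v
      · rw [if_pos hv]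
        tauto
      · rw [if_neg hv]
        tauto
    · intro h3 v
      rw [h, hTr _ (hρ1 v)]
      by_cases hv : T v
      · rw [if_pos hv]
        tauto
      · rw [if_neg hv]
        tauto
  have t1 := tT F₁ a₁ a₂ hF₁ hTa
  have t2 := tT F₂ b₁ b₂ hF₂ hTb
  have hloop1 : ∀ v, F₁ v ≠ v := by
    intro v h
    have := (hfac.2 v (F₁ v)).2 (Or.inl rfl)
    rw [h] at this
    exact hE.irr v this
  have hloop2 : ∀ v, F₂ v ≠ v := by
    intro v h
    have := (hfac.2 v (F₂ v)).2 (Or.inr rfl)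
    rw [h] at this
    exact hE.irr v this
  refine ⟨F₁, F₂, hfac, ?_⟩
  rw [← hC]
  by_cases s1 : T a₁ <;> by_cases s2 : T b₁
  · -- impossible: the first orbit is closed
    exfalso
    have h3 : ∀ w, Relation.ReflTransGen E v₁ w → T w := by
      intro w h
      induction h with
      | refl => exact hT1
      | tail _ hbc ih =>
        rcases (hfac.2 _ _).1 hbc with rfl | rfl
        · exact (t1.1 s1 _).2 ih
        · exact (t2.1 s2 _).2 ih
    exact hT2 (h3 v₂ (hE.conn v₁ v₂))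
  · obtain ⟨X, x1, x2, x3, x4, -, x5⟩ := core (C := C) (T := T) g1 g2 htr hC2 hC1 (t2.2 s2)
      (t1.1 s1) hloop1
    exact ⟨X, x1, x2, x3, x4, x5⟩
  · obtain ⟨X, x1, x2, x3, x4, -, x5⟩ := core (C := C) (T := T) g1 g2 htr hC1 hC2 (t1.2 s1)
      (t2.1 s2) hloop2
    exact ⟨X, x1, x2, x4, x3, x5⟩
  · have hk : F₁⁻¹ * F₂ ∈ C := C.mul_mem (C.inv_mem hC1) hC2
    have hk1 : ∀ v, T ((F₁⁻¹ * F₂) v) ↔ T v := by
      intro v
      have h3 := t1.2 s1 ((F₁⁻¹ * F₂) v)
      rw [Perm.mul_apply, ps1, t2.2 s2] at h3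
      rw [Perm.mul_apply]
      tauto
    have hk2 : ∀ v, (F₁⁻¹ * F₂) v ≠ v := by
      intro v h
      rw [Perm.mul_apply, Perm.inv_eq_iff_eq] at h
      exact hfac.1 v h.symm
    obtain ⟨X, x1, x2, x3, x4, x6, x5⟩ := core (C := C) (T := T) g1 g2 htr hC1 hk (t1.2 s1) hk1 hk2
    rw [mul_inv_cancel_left] at x6
    exact ⟨X, x1, x2, x4, x6, x5⟩

end Pool.Agent.STE
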