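import Pool.Agent.STE.Super
import Pool.Agent.STE.Two

/-!
# Nilpotent groups, orders `p ^ k` and `2 p ^ k`
-/

set_option autoImplicit false

namespace Pool.Agent.STE

open Equiv

open scoped commutatorElement

section

variable {G : Type} [Group G]

theorem nil_next (hG : Group.IsNilpotent G) (A : Subgroup G) (hA : A.Normal) (hne : A ≠ ⊤) :
    ∃ x, x ∉ A ∧ (A ⊔ Subgroup.zpowers x).Normal := by
  classical
  obtain ⟨c, hc⟩ := hG.nilpotent
  have hex : ∃ k, ¬ Subgroup.upperCentralSeries G k ≤ A := by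
    refine ⟨c, fun h => hne ?_⟩
    rw [hc] at h
    exact top_le_iff.1 h
  obtain ⟨k, hk1, hk2⟩ : ∃ k, ¬ Subgroup.upperCentralSeries G k ≤ A ∧
      ∀ j < k, Subgroup.upperCentralSeries G j ≤ A :=
    ⟨Nat.find hex, Nat.find_spec hex, fun j hj => not_not.1 (Nat.find_min hex hj)⟩
  rcases k with _ | j
  · exact absurd (by rw [Subgroup.upperCentralSeries_zero]; exact bot_le) hk1
  have hj := hk2 j (by omega)
  obtain ⟨x, hx, hxA⟩ := SetLike.not_le_iff_exists.1 hk1
  rw [Subgroup.mem_upperCentralSeries_succ_iff] at hx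
  refine ⟨x, hxA, ⟨fun z hz g => ?_⟩⟩
  rw [Subgroup.mem_sup_of_normal_left] at hz
  obtain ⟨u, hu, w, hw, rfl⟩ := hz
  obtain ⟨b, rfl⟩ := Subgroup.mem_zpowers_iff.1 hw
  have e : g * (u * x ^ b) * g⁻¹ = (g * u * g⁻¹) * (((x * g * x⁻¹ * g⁻¹)⁻¹ * x) ^ b) := by
    have e1 : (x * g * x⁻¹ * g⁻¹)⁻¹ * x = g * x * g⁻¹ := by group
    rw [e1, conj_zpow]
    group
  rw [e]
  have hle : A ≤ A ⊔ Subgroup.zpowers x := le_sup_left
  refine Subgroup.mul_mem _ (hle (hA.conj_mem u hu g)) (Subgroup.zpow_mem _ (Subgroup.mul_mem _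
    (hle (A.inv_mem (hj (hx g)))) ?_) b)
  exact (le_sup_right : Subgroup.zpowers x ≤ _) (Subgroup.mem_zpowers x)

/-- A finite nilpotent group is supersolvable. -/
theorem nil_super [Finite G] (hG : Group.IsNilpotent G) : IsSupersolvable G := by
  classical
  have hstep : ∀ A : Subgroup G, A.Normal → ∃ B : Subgroup G, B.Normal ∧ A ≤ B ∧
      (∃ x, B = A ⊔ Subgroup.zpowers x) ∧ (A ≠ ⊤ → A < B) := by
    intro A hA
    by_cases h : A = ⊤
    · exact ⟨A, hA, le_rfl, ⟨1, by simp⟩, fun h' => absurd h h'⟩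
    · obtain ⟨x, hx, hn⟩ := nil_next hG A hA h
      refine ⟨_, hn, le_sup_left, ⟨x, rfl⟩, fun _ => lt_of_le_of_ne le_sup_left fun h' => hx ?_⟩
      rw [h']
      exact (le_sup_right : Subgroup.zpowers x ≤ _) (Subgroup.mem_zpowers x)
  choose f hf1 hf2 hf3 hf4 using hstep
  let N : ℕ → {A : Subgroup G // A.Normal} := fun i =>
    Nat.rec ⟨⊥, inferInstance⟩ (fun _ A => ⟨f A.1 A.2, hf1 A.1 A.2⟩) i
  have hcard : ∀ i, (N i).1 = ⊤ ∨ i < Nat.card (N i).1 := by
    intro i
    induction i with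
    | zero => exact Or.inr Nat.card_pos
    | succ i ih =>
      by_cases h : (N i).1 = ⊤
      · refine Or.inl (top_le_iff.1 ?_)
        rw [← h]
        exact hf2 _ (N i).2
      · have h1 := ih.resolve_left h
        have h2 := hf4 _ (N i).2 h
        have h3 : Nat.card (N i).1 < Nat.card (N (i + 1)).1 := by
          have e1 : ∀ A : Subgroup G, Nat.card A = (A : Set G).ncard :=
            fun A => Nat.card_coe_set_eq (A : Set G)
          rw [e1, e1]
          exact Set.ncard_lt_ncard h2 (Set.toFinite _)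
        exact Or.inr (by omega)
  refine ⟨Nat.card G, fun i => (N i).1, rfl, ?_, fun i => (N i).2, fun i => ⟨hf2 _ (N i).2,
    hf3 _ (N i).2⟩⟩
  rcases hcard (Nat.card G) with h | h
  · exact h
  · exact absurd h (not_lt.2 (Subgroup.card_le_card_group _))

end

/-- A Sylow subgroup of a transitive group of prime power degree is transitive. -/
theorem sylow_tr {V : Type} [Finite V] [Nonempty V] {G : Subgroup (Perm V)}
    (hT : ∀ v w, ∃ g ∈ G, g v = w) {p k : ℕ} [hp : Fact p.Prime] (hn : Nat.card V = p ^ k) :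
    ∃ P : Subgroup (Perm V), P ≤ G ∧ IsPGroup p P ∧ ∀ v w, ∃ g ∈ P, g v = w := by
  classical
  obtain ⟨S⟩ : Nonempty (Sylow p G) := Sylow.nonempty
  refine ⟨(S : Subgroup G).map G.subtype, ?_, S.2.map _, fun v w => ?_⟩
  · rintro _ ⟨x, -, rfl⟩
    exact x.2
  have hpt : MulAction.IsPretransitive G V := ⟨fun v w => by
    obtain ⟨g, hg, e⟩ := hT v w
    exact ⟨⟨g, hg⟩, e⟩⟩
  have h1 : (MulAction.stabilizer G v).index = p ^ k := by
    rw [MulAction.index_stabilizer_of_transitive, hn]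
  have h2 : ¬ p ∣ (S : Subgroup G).index := S.not_dvd_index
  have h3 : (MulAction.stabilizer G v ⊓ S).index =
      (MulAction.stabilizer G v).relIndex S * (S : Subgroup G).index := by
    rw [← Subgroup.relIndex_mul_index (inf_le_right : MulAction.stabilizer G v ⊓ S ≤ S),
      Subgroup.inf_relIndex_right]
  have h4 : p ^ k ∣ (MulAction.stabilizer G v ⊓ S).index := by
    rw [← h1]
    exact Subgroup.index_dvd_of_le inf_le_left
  rw [h3] at h4
  have h5 : p ^ k ∣ (MulAction.stabilizer G v).relIndex S :=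
    Nat.Coprime.dvd_of_dvd_mul_right
      (Nat.Coprime.pow_left k ((Nat.Prime.coprime_iff_not_dvd hp.out).2 h2)) h4
  have h6 : (MulAction.stabilizer G v).relIndex S = (MulAction.orbit S v).ncard := by
    rw [← MulAction.index_stabilizer]
    rfl
  rw [h6] at h5
  have h7 : MulAction.orbit S v = Set.univ := by
    apply Set.eq_of_subset_of_ncard_le (Set.subset_univ _) _ (Set.toFinite _)
    rw [Set.ncard_univ, hn]
    refine Nat.le_of_dvd ?_ h5
    rw [Set.ncard_pos]
    exact MulAction.nonempty_orbit v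
  have h8 : w ∈ MulAction.orbit S v := by rw [h7]; trivial
  obtain ⟨s, hs⟩ := h8
  exact ⟨((s : G) : Perm V), ⟨(s : G), s.2, rfl⟩, hs⟩

end Pool.Agent.STE
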