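import Pool.Agent.STE.Defs

/-!
# Sets that are sharply transitive on the orbits of a group: adding one generator
-/

set_option autoImplicit false

namespace Pool.Agent.STE

open Equiv

variable {V : Type}

theorem ps1 (g : Perm V) (v : V) : g (g⁻¹ v) = v := g.apply_symm_apply v

theorem ps2 (g : Perm V) (v : V) : g⁻¹ (g v) = v := g.symm_apply_apply v

/-- `Y` is sharply transitive on the orbits of `U`. -/
structure Sharp (U : Subgroup (Perm V)) (Y : Set (Perm V)) : Prop where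
  one : 1 ∈ Y
  loc : ∀ y ∈ Y, ∀ v, ∃ u ∈ U, y v = u v
  ex : ∀ v w, (∃ u ∈ U, u v = w) → ∃! y, y ∈ Y ∧ y v = w

theorem sharp_bot : Sharp (⊥ : Subgroup (Perm V)) {1} where
  one := rfl
  loc := by
    rintro y rfl v
    exact ⟨1, Subgroup.one_mem _, rfl⟩
  ex := by
    rintro v w ⟨u, hu, h⟩
    rw [Subgroup.mem_bot] at hu
    subst hu
    refine ⟨1, ⟨rfl, h⟩, ?_⟩
    rintro y ⟨hy, -⟩
    exact hy

variable {U : Subgroup (Perm V)} {x : Perm V}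

theorem zpow_norm (h1 : ∀ u ∈ U, x * u * x⁻¹ ∈ U) (h2 : ∀ u ∈ U, x⁻¹ * u * x ∈ U) (a : ℤ) :
    ∀ u ∈ U, x ^ a * u * (x ^ a)⁻¹ ∈ U := by
  have h1' : ∀ n : ℕ, ∀ u ∈ U, x ^ n * u * (x ^ n)⁻¹ ∈ U := by
    intro n
    induction n with
    | zero => intro u hu; simpa using hu
    | succ n ih =>
      intro u hu
      have e : x ^ (n + 1) * u * (x ^ (n + 1))⁻¹ = x * (x ^ n * u * (x ^ n)⁻¹) * x⁻¹ := by
        rw [pow_succ']
        group
      rw [e]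
      exact h1 _ (ih u hu)
  have h2' : ∀ n : ℕ, ∀ u ∈ U, (x ^ n)⁻¹ * u * x ^ n ∈ U := by
    intro n
    induction n with
    | zero => intro u hu; simpa using hu
    | succ n ih =>
      intro u hu
      have e : (x ^ (n + 1))⁻¹ * u * x ^ (n + 1) = x⁻¹ * ((x ^ n)⁻¹ * u * x ^ n) * x := by
        rw [pow_succ]
        group
      rw [e]
      exact h2 _ (ih u hu)
  obtain ⟨n, rfl | rfl⟩ := a.eq_nat_or_neg
  · intro u hu
    rw [zpow_natCast]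
    exact h1' n u hu
  · intro u hu
    rw [zpow_neg, zpow_natCast, inv_inv]
    exact h2' n u hu

/-- Adding one generator. -/
theorem step0 [Finite V] [Nonempty V] (h1 : ∀ u ∈ U, x * u * x⁻¹ ∈ U)
    (h2 : ∀ u ∈ U, x⁻¹ * u * x ∈ U)
    (hA : ∀ v w, ∀ a : ℤ, (∃ u ∈ U, (x ^ a) v = u v) → ∃ u ∈ U, (x ^ a) w = u w)
    {Y : Set (Perm V)} (hY : Sharp U Y) :
    ∃ Y' : Set (Perm V), (∀ y ∈ Y, y ∈ Y') ∧
      (∀ y ∈ Y', ∃ a : ℕ, ∃ z ∈ Y, y = x ^ a * z) ∧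
      ((∃ v, ∀ u ∈ U, x v ≠ u v) → ∀ y ∈ Y, x * y ∈ Y') ∧
      ∀ v w, (∃ u ∈ U, ∃ b : ℤ, (u * x ^ b) v = w) → ∃! y, y ∈ Y' ∧ y v = w := by
  classical
  have hn := zpow_norm h1 h2
  obtain ⟨v₀⟩ := ‹Nonempty V›
  -- the exponents
  let A : AddSubgroup ℤ :=
    { carrier := {a | ∃ u ∈ U, (x ^ a) v₀ = u v₀}
      zero_mem' := ⟨1, U.one_mem, by simp⟩
      add_mem' := by
        rintro a b ⟨u, hu, ha⟩ ⟨u', hu', hb⟩
        refine ⟨x ^ a * u' * (x ^ a)⁻¹ * u, U.mul_mem (hn a u' hu') hu, ?_⟩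
        rw [zpow_add, Perm.mul_apply, hb, Perm.mul_apply, ← ha, Perm.mul_apply, ps2,
          Perm.mul_apply]
      neg_mem' := by
        rintro a ⟨u, hu, ha⟩
        have hu2 : x ^ (-a) * u⁻¹ * (x ^ (-a))⁻¹ ∈ U := hn (-a) _ (U.inv_mem hu)
        refine ⟨_, hu2, ?_⟩
        rw [zpow_neg, inv_inv, Perm.mul_apply, Perm.mul_apply, ha, ps2] }
  have hAv : ∀ v, ∀ a : ℤ, (∃ u ∈ U, (x ^ a) v = u v) ↔ a ∈ A :=
    fun v a => ⟨fun h => hA v v₀ a h, fun h => hA v₀ v a h⟩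
  obtain ⟨d, hd⟩ := Int.subgroup_cyclic A
  have hdA : ∀ a : ℤ, a ∈ A ↔ (d.natAbs : ℤ) ∣ a := by
    intro a
    rw [hd, AddSubgroup.mem_closure_singleton, Int.natAbs_dvd]
    constructor
    · rintro ⟨n, rfl⟩
      exact ⟨n, by simp [mul_comm]⟩
    · rintro ⟨n, rfl⟩
      exact ⟨n, by simp [mul_comm]⟩
  obtain ⟨m, hm⟩ : ∃ m : ℕ, m = d.natAbs := ⟨_, rfl⟩
  rw [← hm] at hdA
  have hm0 : 0 < m := by
    have h3 : (orderOf x : ℤ) ∈ A := ⟨1, U.one_mem, by simp [pow_orderOf_eq_one]⟩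
    rw [hdA] at h3
    rcases Nat.eq_zero_or_pos m with h4 | h4
    · rw [h4] at h3
      simp only [Nat.cast_zero, zero_dvd_iff, Nat.cast_eq_zero] at h3
      exact absurd h3 (orderOf_pos x).ne'
    · exact h4
  refine ⟨{z | ∃ a : ℕ, a < m ∧ ∃ y ∈ Y, z = x ^ a * y}, ?_, ?_, ?_, ?_⟩
  · intro y hy
    exact ⟨0, hm0, y, hy, by simp⟩
  · rintro y ⟨a, -, z, hz, rfl⟩
    exact ⟨a, z, hz, rfl⟩
  · rintro ⟨v, hv⟩ y hy
    refine ⟨1, ?_, y, hy, by simp⟩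
    by_contra h3
    have h4 : m = 1 := by omega
    have h5 : (1 : ℤ) ∈ A := by
      rw [hdA, h4]
      simp
    obtain ⟨u, hu, h6⟩ := (hAv v 1).2 h5
    rw [zpow_one] at h6
    exact hv u hu h6
  · rintro v w ⟨u, hu, b, hw⟩
    have hmz : (0 : ℤ) < m := by exact_mod_cast hm0
    obtain ⟨a, ha⟩ : ∃ a : ℕ, (a : ℤ) = b % m := ⟨(b % m).toNat, by
      rw [Int.toNat_of_nonneg (Int.emod_nonneg _ hmz.ne')]⟩
    have ham : a < m := by
      have := Int.emod_lt_of_pos b hmz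
      omega
    have hba : b - a ∈ A := by
      rw [hdA, ha]
      exact Int.dvd_self_sub_emod
    obtain ⟨u1, hu1, h3⟩ := (hAv v _).2 hba
    have hw2 : w = (x ^ a) (((x ^ (-(a : ℤ)) * u * (x ^ (-(a : ℤ)))⁻¹) * u1) v) := by
      rw [← hw, Perm.mul_apply, Perm.mul_apply, ← h3, ← Perm.mul_apply, ← Perm.mul_apply,
        ← Perm.mul_apply]
      congr 1
      rw [← zpow_natCast]
      group
    have hu2 := U.mul_mem (hn (-(a : ℤ)) u hu) hu1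
    obtain ⟨y, ⟨hy, hyv⟩, hyu⟩ := hY.ex v _ ⟨_, hu2, rfl⟩
    refine ⟨x ^ a * y, ⟨⟨a, ham, y, hy, rfl⟩, ?_⟩, ?_⟩
    · rw [Perm.mul_apply, hyv, ← hw2]
    · rintro z ⟨⟨a', ha'm, y', hy', rfl⟩, hz⟩
      obtain ⟨u3, hu3, h5⟩ := hY.loc y' hy' v
      have h6 : (x ^ (a' : ℤ)) (u3 v) =
          (x ^ (a : ℤ)) (((x ^ (-(a : ℤ)) * u * (x ^ (-(a : ℤ)))⁻¹) * u1) v) := by
        rw [zpow_natCast, zpow_natCast, ← hw2, ← h5, ← hz]
        rfl
      have h7 : (a' : ℤ) - a ∈ A := by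
        rw [← hAv v]
        obtain ⟨u4, hu4, h8⟩ : ∃ u4 ∈ U, u4 =
            (x ^ (-(a : ℤ)) * u * (x ^ (-(a : ℤ)))⁻¹) * u1 := ⟨_, hu2, rfl⟩
        rw [← h8] at h6
        have h9 := hn ((a' : ℤ) - a) _ (U.inv_mem hu3)
        refine ⟨_, U.mul_mem h9 hu4, ?_⟩
        have h10 : u4 v = (x ^ ((a' : ℤ) - a)) (u3 v) := by
          rw [sub_eq_neg_add, zpow_add, Perm.mul_apply, h6, zpow_neg, ps2]
        rw [Perm.mul_apply, h10, Perm.mul_apply, Perm.mul_apply, ps2, ps2]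
      rw [hdA] at h7
      have h8 : a' = a := by
        obtain ⟨q, hq⟩ := h7
        have h9 : q = 0 := by
          have h10 : (m : ℤ) * q < m * 1 := by omega
          have h11 : (m : ℤ) * (-1) < m * q := by omega
          have h12 := lt_of_mul_lt_mul_left h10 hmz.le
          have h13 := lt_of_mul_lt_mul_left h11 hmz.le
          omega
        rw [h9, mul_zero] at hq
        omega
      subst h8
      have h9 : y' v = (((x ^ (-(a' : ℤ)) * u * (x ^ (-(a' : ℤ)))⁻¹) * u1) v) := by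
        have h10 : (x ^ a') (y' v) = w := hz
        rw [hw2] at h10
        exact (x ^ a').injective h10
      rw [hyu y' ⟨hy', h9⟩]

end Pool.Agent.STE
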