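import Pool.Agent.STE.Crit

/-!
# Supersolvable groups of automorphisms
-/

set_option autoImplicit false

namespace Pool.Agent.STE

open Equiv

open scoped commutatorElement

/-- `G` is supersolvable: it has a finite normal series with cyclic factors. -/
def IsSupersolvable (G : Type) [Group G] : Prop :=
  ∃ (n : ℕ) (N : ℕ → Subgroup G), N 0 = ⊥ ∧ N n = ⊤ ∧ (∀ i, (N i).Normal) ∧
    ∀ i, N i ≤ N (i + 1) ∧ ∃ x, N (i + 1) = N i ⊔ Subgroup.zpowers x

section

variable {G : Type} [Group G] {A B : Subgroup G} {y : G}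

theorem cyc_form [hA : A.Normal] (hB : B = A ⊔ Subgroup.zpowers y) {x : G} (hx : x ∈ B) :
    ∃ u ∈ A, ∃ b : ℤ, x = u * y ^ b := by
  rw [hB, Subgroup.mem_sup_of_normal_left] at hx
  obtain ⟨u, hu, z, hz, rfl⟩ := hx
  obtain ⟨b, rfl⟩ := Subgroup.mem_zpowers_iff.1 hz
  exact ⟨u, hu, b, rfl⟩

/-- The action by conjugation on a cyclic factor. -/
theorem cyc_conj [hA : A.Normal] [hBn : B.Normal] (hB : B = A ⊔ Subgroup.zpowers y) (g : G) :
    ∃ c : ℤ, ∀ x ∈ B, g * x * g⁻¹ * (x ^ c)⁻¹ ∈ A := by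
  have hy : y ∈ B := by
    rw [hB]
    exact (le_sup_right : Subgroup.zpowers y ≤ _) (Subgroup.mem_zpowers y)
  obtain ⟨u, hu, c, e⟩ := cyc_form hB (hBn.conj_mem y hy g)
  refine ⟨c, fun x hx => ?_⟩
  obtain ⟨u', hu', b, rfl⟩ := cyc_form hB hx
  have h1 : ∀ p q : G, p * q⁻¹ ∈ A ↔ (QuotientGroup.mk' A p) = QuotientGroup.mk' A q := by
    intro p q
    rw [← div_eq_mul_inv, ← QuotientGroup.eq_one_iff]
    rw [← QuotientGroup.mk'_apply, map_div, div_eq_one]
  rw [h1]
  have hπ : ∀ v ∈ A, QuotientGroup.mk' A v = 1 := by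
    intro v hv
    rw [← MonoidHom.mem_ker, QuotientGroup.ker_mk']
    exact hv
  have e2 : QuotientGroup.mk' A g * QuotientGroup.mk' A y * (QuotientGroup.mk' A g)⁻¹ =
      QuotientGroup.mk' A y ^ c := by
    rw [← map_inv, ← map_mul, ← map_mul, e, map_mul, hπ u hu, one_mul, map_zpow]
  rw [map_zpow, map_mul, map_mul, map_mul, hπ u' hu', one_mul, map_zpow, map_inv, ← conj_zpow, e2,
    ← zpow_mul, ← zpow_mul, mul_comm]

theorem comm_cent [hA : A.Normal] [hBn : B.Normal] (hB : B = A ⊔ Subgroup.zpowers y)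
    (g h : G) : ∀ x ∈ B, ⁅x, ⁅g, h⁆⁆ ∈ A := by
  obtain ⟨c, hc⟩ := cyc_conj hB g
  obtain ⟨d, hd⟩ := cyc_conj hB h
  have h1 : ∀ p q : G, p * q⁻¹ ∈ A ↔ (QuotientGroup.mk' A p) = QuotientGroup.mk' A q := by
    intro p q
    rw [← div_eq_mul_inv, ← QuotientGroup.eq_one_iff]
    rw [← QuotientGroup.mk'_apply, map_div, div_eq_one]
  obtain ⟨π, hπ⟩ : ∃ π : G →* G ⧸ A, π = QuotientGroup.mk' A := ⟨_, rfl⟩
  rw [← hπ] at h1
  have hc' : ∀ x ∈ B, π (g * x * g⁻¹) = π x ^ c := by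
    intro x hx
    rw [← map_zpow]
    exact (h1 _ _).1 (hc x hx)
  have hd' : ∀ x ∈ B, π (h * x * h⁻¹) = π x ^ d := by
    intro x hx
    rw [← map_zpow]
    exact (h1 _ _).1 (hd x hx)
  intro x hx
  obtain ⟨w, hw⟩ : ∃ w, w = (h * g)⁻¹ * x * (h * g) := ⟨_, rfl⟩
  have hwB : w ∈ B := by
    have := hBn.conj_mem x hx (h * g)⁻¹
    rw [inv_inv] at this
    rw [hw]
    exact this
  have e1 : x = h * (g * w * g⁻¹) * h⁻¹ := by
    rw [hw]
    group
  have e2 : ⁅g, h⁆ * x * ⁅g, h⁆⁻¹ = g * (h * w * h⁻¹) * g⁻¹ := by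
    rw [hw, commutatorElement_def]
    group
  have e3 : π x = π w ^ (c * d) := by
    conv_lhs => rw [e1]
    rw [hd' _ (hBn.conj_mem w hwB g), hc' w hwB, ← zpow_mul]
  have e4 : π (⁅g, h⁆ * x * ⁅g, h⁆⁻¹) = π w ^ (c * d) := by
    rw [e2, hc' _ (hBn.conj_mem w hwB h), hd' w hwB, ← zpow_mul, mul_comm]
  have e5 : ⁅x, ⁅g, h⁆⁆ = x * (⁅g, h⁆ * x * ⁅g, h⁆⁻¹)⁻¹ := by
    rw [commutatorElement_def x]
    group
  rw [e5, h1, e3, e4]

/-- The commutator subgroup acts trivially on a cyclic factor. -/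
theorem comm_cent' [hA : A.Normal] [hBn : B.Normal] (hB : B = A ⊔ Subgroup.zpowers y) :
    ∀ z ∈ commutator G, ∀ x ∈ B, ⁅x, z⁆ ∈ A := by
  intro z hz
  rw [commutator_eq_closure] at hz
  induction hz using Subgroup.closure_induction with
  | mem z hz =>
    obtain ⟨g, h, rfl⟩ := hz
    exact comm_cent hB g h
  | one => intro x _; simp
  | mul a b _ _ ha hb =>
    intro x hx
    have e : ⁅x, a * b⁆ = ⁅x, a⁆ * (a * ⁅x, b⁆ * a⁻¹) := by
      simp only [commutatorElement_def]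
      group
    rw [e]
    exact A.mul_mem (ha x hx) (hA.conj_mem _ (hb x hx) a)
  | inv a _ ha =>
    intro x hx
    have e : ⁅x, a⁻¹⁆ = a⁻¹ * ⁅x, a⁆⁻¹ * a⁻¹⁻¹ := by
      simp only [commutatorElement_def]
      group
    rw [e]
    exact hA.conj_mem _ (A.inv_mem (ha x hx)) a⁻¹

/-- The commutator subgroup of a supersolvable group is nilpotent. -/
theorem super_comm_nil (h : IsSupersolvable G) : Group.IsNilpotent (commutator G) := by
  obtain ⟨n, N, h0, hn, hN, hc⟩ := h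
  rw [Subgroup.nilpotent_iff_finite_ascending_central_series]
  refine ⟨n, fun i => (N i).subgroupOf (commutator G), ⟨?_, ?_⟩, ?_⟩
  · simp only [h0, Subgroup.bot_subgroupOf]
  · intro x i hx g
    rw [Subgroup.mem_subgroupOf] at hx ⊢
    obtain ⟨y, hy⟩ := (hc i).2
    have := hN i
    have := hN (i + 1)
    exact comm_cent' hy (g : G) g.2 (x : G) hx
  · simp only [hn, Subgroup.top_subgroupOf]

end

/-- A supersolvable group of automorphisms that acts transitively. -/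
theorem super {V : Type} {E : V → V → Prop} [Finite V] [Nonempty V] (hE : Dig E)
    {G : Subgroup (Perm V)} (hG : G ≤ autGroup E) (hT : ∀ v w, ∃ g ∈ G, g v = w)
    (hs : IsSupersolvable G) : HasSTE E := by
  by_cases hreg : ∀ h ∈ G, ∀ v, h v = v → h = 1
  · exact regular hE hG hT hreg
  have hnil := super_comm_nil hs
  obtain ⟨n, N, h0, hn, hN, hc⟩ := hs
  -- an element that exchanges the out-neighbours
  push Not at hreg
  obtain ⟨x, hx, v₀, hv₀, hx1⟩ := hreg
  obtain ⟨u, w, hu, huw, hxw⟩ : ∃ u w, x u = u ∧ E u w ∧ x w ≠ w := by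
    by_contra h
    push Not at h
    exact hx1 (fix_all hE.conn hv₀ fun u w hu huw => h u w hu huw)
  have hxw' : E u (x w) := by
    have := (hG hx u w).2 huw
    rwa [hu] at this
  have hset : ∀ w', E u w' → w' = w ∨ w' = x w := by
    intro w' hw'
    obtain ⟨a, b, hab, e⟩ := Set.ncard_eq_two.1 (hE.out u)
    have h1 : ∀ z, E u z ↔ z = a ∨ z = b := by
      intro z
      have h1 : z ∈ {w | E u w} ↔ z ∈ ({a, b} : Set V) := by rw [e]
      simpa using h1
    have a1 := (h1 _).1 hw'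
    have a2 := (h1 _).1 huw
    have a3 := (h1 _).1 hxw'
    rcases a1 with rfl | rfl <;> rcases a2 with a2 | a2 <;> rcases a3 with a3 | a3 <;>
      simp_all
  have key : ∀ v w w', E v w → E v w' → ∃ h ∈ (commutator G).map G.subtype, h w = w' := by
    intro v w₁ w₂ h1 h2
    by_cases h12 : w₁ = w₂
    · exact ⟨1, Subgroup.one_mem _, h12⟩
    obtain ⟨g, hg, rfl⟩ := hT v u
    -- `y` fixes `v` and exchanges the out-neighbours
    obtain ⟨y, hy⟩ : ∃ y, y = g⁻¹ * x * g := ⟨_, rfl⟩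
    have hyG : y ∈ G := hy ▸ G.mul_mem (G.mul_mem (G.inv_mem hg) hx) hg
    have hyv : y v = v := by
      rw [hy, Perm.mul_apply, Perm.mul_apply, hu, ps2]
    have hy12 : y w₁ = w₂ := by
      have a1 := hset _ ((hG hg v w₁).2 h1)
      have a2 := hset _ ((hG hg v w₂).2 h2)
      have a3 : g (y w₁) = x (g w₁) := by
        rw [hy, Perm.mul_apply, Perm.mul_apply, ps1]
      have a4 : x (g w₁) ≠ g w₁ := by
        rcases a1 with a1 | a1
        · rw [a1]
          exact hxw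
        · rw [a1]
          intro h
          exact hxw (x.injective h)
      have a5 := hset _ (by
        have := (hG hx (g v) (g w₁)).2 ((hG hg v w₁).2 h1)
        rw [hu] at this
        exact this : E (g v) (x (g w₁)))
      have a6 : g w₁ ≠ g w₂ := fun h => h12 (g.injective h)
      apply g.injective
      rw [a3]
      rcases a1 with a1 | a1 <;> rcases a2 with a2 | a2 <;> rcases a5 with a5 | a5
      · exact absurd (a1.trans a2.symm) a6
      · exact absurd (a1.trans a2.symm) a6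
      · exact absurd (a5.trans a1.symm) a4
      · exact a5.trans a2.symm
      · exact a5.trans a2.symm
      · exact absurd (a5.trans a1.symm) a4
      · exact absurd (a1.trans a2.symm) a6
      · exact absurd (a1.trans a2.symm) a6
    obtain ⟨z, hz, rfl⟩ := hT v w₁
    refine ⟨⁅y, z⁆, ⟨⁅⟨y, hyG⟩, ⟨z, hz⟩⁆, Subgroup.commutator_mem_commutator (Subgroup.mem_top _)
      (Subgroup.mem_top _), rfl⟩, ?_⟩
    rw [← hy12, commutatorElement_def]
    simp only [Perm.mul_apply, ps2]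
    congr 2
    rw [Perm.inv_eq_iff_eq, hyv]
  have hcn : (commutator G).Normal := inferInstance
  refine crit hE hG hT (fun i => (N i ⊓ commutator G).map G.subtype) n ?_ ?_ ?_ ?_ ?_ ?_ ?_
  · simp only [h0, bot_inf_eq, Subgroup.map_bot]
  · intro i
    rintro _ ⟨h, -, rfl⟩
    exact h.2
  · rintro i g hg _ ⟨h, ⟨hh1, hh2⟩, rfl⟩
    exact ⟨⟨g, hg⟩ * h * ⟨g, hg⟩⁻¹, ⟨(hN i).conj_mem h hh1 _, hcn.conj_mem h hh2 _⟩, rfl⟩
  · intro i
    exact Subgroup.map_mono (inf_le_inf_right _ (hc i).1)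
  · rintro i g hg _ ⟨h, ⟨hh1, hh2⟩, rfl⟩
    obtain ⟨y, hy⟩ := (hc i).2
    have := hN i
    have := hN (i + 1)
    obtain ⟨b, hb⟩ := cyc_conj hy (⟨g, hg⟩⁻¹ : G)
    have hb' := hb h hh1
    rw [inv_inv] at hb'
    refine ⟨b, _, ⟨hb', ?_⟩, rfl⟩
    have h1 := hcn.conj_mem h hh2 (⟨g, hg⟩⁻¹ : G)
    rw [inv_inv] at h1
    exact (commutator G).mul_mem h1 ((commutator G).inv_mem ((commutator G).zpow_mem hh2 b))
  · rw [hn, top_inf_eq]
    have e := Subgroup.equivMapOfInjective (commutator G) G.subtype G.subtype_injective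
    exact Group.nilpotent_of_mulEquiv e
  · rw [hn, top_inf_eq]
    exact key

end Pool.Agent.STE
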